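import Pool.Agent.Lib_helper21.PAC.Mat

/-!
# Abelian groups of finite exponent: `4 n - 2` generalised moves
-/

set_option autoImplicit false

namespace Pool.Agent.PAC

open Pool.Agent.ACB

universe u

section Act

variable {R P : Type*} [CommRing R] [AddCommGroup P] [Module R P] {n : ℕ}

/-- a matrix acting on a tuple -/
def act (M : Matrix (Fin n) (Fin n) R) (y : Fin n → P) : Fin n → P := fun i => ∑ j, M i j • y j

theorem act_mul (M N : Matrix (Fin n) (Fin n) R) (y : Fin n → P) :
    act (M * N) y = act M (act N y) := by
  funext i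
  simp only [act, Matrix.mul_apply, Finset.sum_smul, Finset.smul_sum, smul_smul]
  exact Finset.sum_comm

theorem act_one (y : Fin n → P) : act (1 : Matrix (Fin n) (Fin n) R) y = y := by
  funext i
  simp only [act]
  rw [Finset.sum_eq_single i]
  · rw [Matrix.one_apply_eq, one_smul]
  · intro j _ hj
    rw [Matrix.one_apply_ne hj.symm, zero_smul]
  · intro h
    exact absurd (Finset.mem_univ i) h

theorem act_updateRow (i : Fin n) (v : Fin n → R) (y : Fin n → P) :
    act ((1 : Matrix (Fin n) (Fin n) R).updateRow i v) y =
      Function.update y i (∑ j, v j • y j) := by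
  funext k
  by_cases hk : k = i
  · subst hk
    rw [Function.update_self]
    show ∑ j, (1 : Matrix (Fin n) (Fin n) R).updateRow k v k j • y j = _
    rw [Matrix.updateRow_self]
  · rw [Function.update_of_ne hk]
    show ∑ j, (1 : Matrix (Fin n) (Fin n) R).updateRow i v k j • y j = _
    rw [Matrix.updateRow_ne hk]
    exact congrFun (act_one (R := R) y) k

end Act

section Ab

variable {A : Type u} [CommGroup A] {n : ℕ}

theorem det_pm_mul {a b : ℤ} (ha : a = 1 ∨ a = -1) (hb : b = 1 ∨ b = -1) :
    a * b = 1 ∨ a * b = -1 := by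
  rcases ha with rfl | rfl <;> rcases hb with rfl | rfl <;> norm_num

theorem ac_matrix {x y : Fin n → A} (h : AC x y) :
    ∃ M : Matrix (Fin n) (Fin n) ℤ, (M.det = 1 ∨ M.det = -1) ∧
      (fun i => Additive.ofMul (x i)) = act M (fun i => Additive.ofMul (y i)) := by
  induction h with
  | rel x y h =>
    cases h with
    | mul i j hij =>
      refine ⟨(1 : Matrix (Fin n) (Fin n) ℤ).updateRow i
        ((1 : Matrix (Fin n) (Fin n) ℤ) i + (-1 : ℤ) • (1 : Matrix (Fin n) (Fin n) ℤ) j), ?_, ?_⟩
      · left
        rw [Matrix.det_updateRow_add_smul_self _ hij, Matrix.det_one]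
      · rw [act_updateRow]
        funext k
        by_cases hk : k = i
        · subst hk
          rw [Function.update_self]
          have h1 : ∀ (l : Fin n) (z : Fin n → Additive A),
              ∑ j, (1 : Matrix (Fin n) (Fin n) ℤ) l j • z j = z l := fun l z =>
            congrFun (act_one (R := ℤ) z) l
          simp only [Pi.add_apply, Pi.smul_apply, add_smul, smul_assoc, Finset.sum_add_distrib,
            ← Finset.smul_sum]
          rw [h1, h1]
          simp only [Function.update_self, Function.update_of_ne hij.symm]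
          rw [ofMul_mul, neg_smul, one_smul, add_neg_cancel_right]
        · rw [Function.update_of_ne hk, Function.update_of_ne hk]
    | inv i =>
      refine ⟨(1 : Matrix (Fin n) (Fin n) ℤ).updateRow i
        ((-1 : ℤ) • (1 : Matrix (Fin n) (Fin n) ℤ) i), ?_, ?_⟩
      · right
        rw [Matrix.det_updateRow_smul, Matrix.updateRow_eq_self, Matrix.det_one, mul_one]
      · rw [act_updateRow]
        funext k
        by_cases hk : k = i
        · subst hk
          rw [Function.update_self]
          have h1 : ∀ (l : Fin n) (z : Fin n → Additive A),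
              ∑ j, (1 : Matrix (Fin n) (Fin n) ℤ) l j • z j = z l := fun l z =>
            congrFun (act_one (R := ℤ) z) l
          simp only [Pi.smul_apply, smul_assoc, ← Finset.smul_sum]
          rw [h1]
          simp only [Function.update_self]
          rw [ofMul_inv, neg_smul, one_smul, neg_neg]
        · rw [Function.update_of_ne hk, Function.update_of_ne hk]
    | conj i g =>
      refine ⟨1, Or.inl Matrix.det_one, ?_⟩
      rw [act_one]
      funext k
      by_cases hk : k = i
      · subst hk
        rw [Function.update_self, mul_comm g, mul_inv_cancel_right]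
      · rw [Function.update_of_ne hk]
  | refl x => exact ⟨1, Or.inl Matrix.det_one, (act_one _).symm⟩
  | symm x y _ ih =>
    obtain ⟨M, hM, h⟩ := ih
    refine ⟨M.det • M.adjugate, ?_, ?_⟩
    · have h1 : (M.det • M.adjugate).det * M.det = 1 := by
        rw [← Matrix.det_mul, Matrix.smul_mul, Matrix.adjugate_mul, smul_smul]
        have : M.det * M.det = 1 := by rcases hM with h | h <;> rw [h] <;> norm_num
        rw [this, one_smul, Matrix.det_one]
      exact Int.isUnit_iff.mp (IsUnit.of_mul_eq_one _ h1)
    · rw [h, ← act_mul, Matrix.smul_mul, Matrix.adjugate_mul, smul_smul]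
      have : M.det * M.det = 1 := by rcases hM with h | h <;> rw [h] <;> norm_num
      rw [this, one_smul, act_one]
  | trans x y z _ _ h1 h2 =>
    obtain ⟨M, hM, h1⟩ := h1
    obtain ⟨N, hN, h2⟩ := h2
    refine ⟨M * N, ?_, ?_⟩
    · rw [Matrix.det_mul]
      exact det_pm_mul hM hN
    · rw [act_mul, h1, h2]

theorem lm_gm {m : ℕ} (hm : 0 < m) [Module (ZMod m) (Additive A)] {x y : Fin n → Additive A}
    (h : LMove (ZMod m) x y) : GMove (fun i => (x i).toMul) (fun i => (y i).toMul) := by
  have : NeZero m := ⟨hm.ne'⟩
  obtain ⟨i, h1, h2⟩ := h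
  have key : ∀ v ∈ Submodule.span (ZMod m) {v | ∃ j, j ≠ i ∧ x j = v},
      v.toMul ∈ K (fun i => (x i).toMul) i := by
    intro v hv
    refine Submodule.span_induction (p := fun v _ => v.toMul ∈ K (fun i => (x i).toMul) i)
      ?_ ?_ ?_ ?_ hv
    · rintro _ ⟨j, hj, rfl⟩
      exact mem_K (x := fun i => (x i).toMul) hj
    · exact Subgroup.one_mem _
    · intro a b _ _ ha hb
      rw [toMul_add]
      exact Subgroup.mul_mem _ ha hb
    · intro a b _ hb
      have h3 : a • b = a.val • b := by
        conv_lhs => rw [← ZMod.natCast_zmod_val a]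
        rw [Nat.cast_smul_eq_nsmul]
      rw [h3, toMul_nsmul]
      exact Subgroup.pow_mem _ hb _
  rcases h2 with h2 | h2
  · refine gm_of_mem (i := i) (g := 1) (fun j hj => by simp only [h1 j hj]) ?_
    have h3 := key _ h2
    rw [toMul_sub] at h3
    simp only [one_mul, inv_one, mul_one]
    rw [mul_comm, ← div_eq_mul_inv]
    exact h3
  · refine gm_of_mem' (i := i) (g := 1) (fun j hj => by simp only [h1 j hj]) ?_
    have h3 := key _ h2
    rw [toMul_add] at h3
    simp only [one_mul, inv_one, mul_one, inv_inv]
    rw [mul_comm]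
    exact h3

theorem lchain_gm {m : ℕ} (hm : 0 < m) [Module (ZMod m) (Additive A)] {a : ℕ}
    {x y : Fin n → Additive A} (h : Chain (LMove (ZMod m)) a x y) :
    Chain GMove a (fun i => (x i).toMul) (fun i => (y i).toMul) := by
  induction a generalizing x with
  | zero => exact (show x = y from h) ▸ rfl
  | succ a ih =>
    obtain ⟨w, hw, hw'⟩ := h
    exact ⟨_, lm_gm hm hw, ih hw'⟩

theorem abelian_bound_aux {m : ℕ} (hm : 0 < m) [Module (ZMod m) (Additive A)] (hn : 1 ≤ n)
    {x e : Fin n → A} (h : AC x e) : Chain GMove (4 * n - 2) x e := by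
  obtain ⟨M, hM, hx⟩ := ac_matrix h
  set M' : Matrix (Fin n) (Fin n) (ZMod m) := M.map (Int.cast : ℤ → ZMod m) with hM'
  have hdet : M'.det = 1 ∨ M'.det = -1 := by
    have h1 : M'.det = ((M.det : ℤ) : ZMod m) := by
      exact ((Int.castRingHom (ZMod m)).map_det M).symm
    rcases hM with h | h
    · left
      rw [h1, h, Int.cast_one]
    · right
      rw [h1, h, Int.cast_neg, Int.cast_one]
  have h1 := mat_chain (sr1_zmod m hm) hn M' hdet
  let φ : (Fin n → ZMod m) →ₗ[ZMod m] Additive A :=
    Fintype.linearCombination (ZMod m) (fun j => Additive.ofMul (e j))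
  have h2 := lchain_gm hm (lchain_map φ h1)
  have h3 : (fun i => (((⇑φ ∘ fun i => M' i) i : Additive A)).toMul) = x := by
    funext i
    have h4 := congrFun hx i
    show (φ (M' i)).toMul = x i
    have h5 : φ (M' i) = Additive.ofMul (x i) := by
      rw [h4]
      show Fintype.linearCombination (ZMod m) (fun j => Additive.ofMul (e j)) (M' i) = _
      rw [Fintype.linearCombination_apply]
      simp only [act]
      refine Finset.sum_congr rfl fun j _ => ?_
      rw [hM', Matrix.map_apply, Int.cast_smul_eq_zsmul]
    rw [h5]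
    rfl
  have h4 : (fun i => (((⇑φ ∘ fun j => (Pi.single j 1 : Fin n → ZMod m)) i : Additive A)).toMul) =
      e := by
    funext i
    show (φ (Pi.single i 1)).toMul = e i
    have h5 : φ (Pi.single i 1) = Additive.ofMul (e i) := by
      show Fintype.linearCombination (ZMod m) (fun j => Additive.ofMul (e j)) (Pi.single i 1) = _
      rw [Fintype.linearCombination_apply_single, one_smul]
    rw [h5]
    rfl
  rw [h3, h4] at h2
  exact h2

theorem abelian_bound {m : ℕ} (hm : 0 < m) (hA : ∀ a : A, a ^ m = 1) (hn : 1 ≤ n)
    {x e : Fin n → A} (h : AC x e) : Chain GMove (4 * n - 2) x e :=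
  @abelian_bound_aux A _ n m hm (AddCommGroup.zmodModule (n := m) (fun a => by
    have := hA a.toMul
    rw [← toMul_nsmul] at this
    exact this)) hn x e h

end Ab

end Pool.Agent.PAC
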