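import Pool.Agent.Lib_helper21.PAC.Defs

/-!
# Basic properties of generalised moves
-/

set_option autoImplicit false

namespace Pool.Agent.PAC

open Pool.Agent.ACB

universe u

section Chain

variable {α : Type*} {R : α → α → Prop}

theorem Chain.trans {a b : ℕ} {x y z : α} (h : Chain R a x y) (h' : Chain R b y z) :
    Chain R (a + b) x z := by
  induction a generalizing x with
  | zero =>
    have h0 : x = y := h
    rw [Nat.zero_add, h0]
    exact h'
  | succ a ih =>
    obtain ⟨w, hw, hw'⟩ := h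
    have e1 : a + 1 + b = (a + b) + 1 := by omega
    rw [e1]
    exact ⟨w, hw, ih hw'⟩

theorem Chain.one {x y : α} (h : R x y) : Chain R 1 x y := ⟨y, h, rfl⟩

theorem Chain.symm (hR : ∀ x y, R x y → R y x) {a : ℕ} {x y : α} (h : Chain R a x y) :
    Chain R a y x := by
  induction a generalizing x with
  | zero => exact (show x = y from h).symm
  | succ a ih =>
    obtain ⟨w, hw, hw'⟩ := h
    exact (ih hw').trans (Chain.one (hR _ _ hw))

theorem Chain.mono (hR : ∀ x, R x x) {a b : ℕ} (hab : a ≤ b) {x y : α} (h : Chain R a x y) :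
    Chain R b x y := by
  induction hab with
  | refl => exact h
  | step _ ih => exact ih.trans (Chain.one (hR y))

end Chain

variable {G : Type u} [Group G] {n : ℕ}

theorem gm_of_mem {x y : Fin n → G} {i : Fin n} {g : G} (hy : ∀ j, j ≠ i → y j = x j)
    (h : (g * x i * g⁻¹)⁻¹ * y i ∈ K x i) : GMove x y := by
  refine ⟨i, g, _, h, Or.inl ?_⟩
  funext j
  by_cases hj : j = i
  · subst hj
    rw [Function.update_self, mul_inv_cancel_left]
  · rw [Function.update_of_ne hj, hy j hj]

theorem gm_of_mem' {x y : Fin n → G} {i : Fin n} {g : G} (hy : ∀ j, j ≠ i → y j = x j)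
    (h : (g * (x i)⁻¹ * g⁻¹)⁻¹ * y i ∈ K x i) : GMove x y := by
  refine ⟨i, g, _, h, Or.inr ?_⟩
  funext j
  by_cases hj : j = i
  · subst hj
    rw [Function.update_self, mul_inv_cancel_left]
  · rw [Function.update_of_ne hj, hy j hj]

theorem GMove.cases {x y : Fin n → G} (h : GMove x y) : ∃ (i : Fin n) (g : G),
    (∀ j, j ≠ i → y j = x j) ∧ ((g * x i * g⁻¹)⁻¹ * y i ∈ K x i ∨
      (g * (x i)⁻¹ * g⁻¹)⁻¹ * y i ∈ K x i) := by
  obtain ⟨i, g, k, hk, rfl | rfl⟩ := h
  · refine ⟨i, g, fun j hj => Function.update_of_ne hj _ _, Or.inl ?_⟩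
    rw [Function.update_self, inv_mul_cancel_left]
    exact hk
  · refine ⟨i, g, fun j hj => Function.update_of_ne hj _ _, Or.inr ?_⟩
    rw [Function.update_self, inv_mul_cancel_left]
    exact hk

/-- replacement of one entry by a congruent one -/
theorem gm_set {x : Fin n → G} {j : Fin n} {g : G} (hk : (x j)⁻¹ * g ∈ K x j) :
    GMove x (Function.update x j g) := by
  refine gm_of_mem (i := j) (g := 1) (fun i hi => Function.update_of_ne hi _ _) ?_
  rw [Function.update_self, one_mul, inv_one, mul_one]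
  exact hk

theorem gm_mul {x : Fin n → G} {j : Fin n} {k : G} (hk : k ∈ K x j) :
    GMove x (Function.update x j (x j * k)) := gm_set (by rwa [inv_mul_cancel_left])

theorem gm_refl (hn : 0 < n) (x : Fin n → G) : GMove x x := by
  refine gm_of_mem (i := ⟨0, hn⟩) (g := 1) (fun j _ => rfl) ?_
  rw [one_mul, inv_one, mul_one, inv_mul_cancel]
  exact Subgroup.one_mem _

theorem gm_symm {x y : Fin n → G} (h : GMove x y) : GMove y x := by
  obtain ⟨i, g, hy, h⟩ := h.cases
  have hK : K y i = K x i := K_congr hy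
  have hn := K_normal x i
  rcases h with h | h
  · refine gm_of_mem (i := i) (g := g⁻¹) (fun j hj => (hy j hj).symm) ?_
    rw [hK]
    have h1 := hn.conj_mem _ ((K x i).inv_mem h) g⁻¹
    have h2 : g⁻¹ * ((g * x i * g⁻¹)⁻¹ * y i)⁻¹ * g⁻¹⁻¹ = (g⁻¹ * y i * g⁻¹⁻¹)⁻¹ * x i := by group
    rwa [h2] at h1
  · refine gm_of_mem' (i := i) (g := g⁻¹) (fun j hj => (hy j hj).symm) ?_
    rw [hK]
    have h1 := hn.conj_mem _ h (g⁻¹ * y i)
    have h2 : g⁻¹ * y i * ((g * (x i)⁻¹ * g⁻¹)⁻¹ * y i) * (g⁻¹ * y i)⁻¹ =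
        (g⁻¹ * (y i)⁻¹ * g⁻¹⁻¹)⁻¹ * x i := by group
    rwa [h2] at h1

theorem gm_ac {x y : Fin n → G} (h : GMove x y) : AC x y := by
  obtain ⟨i, g, hy, h⟩ := h.cases
  have e1 : ∀ v : G, y = Function.update (Function.update x i v) i (y i) := by
    intro v
    funext j
    by_cases hj : j = i
    · subst hj; rw [Function.update_self]
    · rw [Function.update_of_ne hj, Function.update_of_ne hj, hy j hj]
  have hK : ∀ v : G, K (Function.update x i v) i = K x i := fun v =>
    K_congr fun j hj => Function.update_of_ne hj _ _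
  rcases h with h | h
  · have h1 := ac_conj x i g
    refine h1.trans ?_
    conv_rhs => rw [e1 (g * x i * g⁻¹)]
    apply ac_set
    rw [hK, Function.update_self]
    exact h
  · have h0 := AC.move (Move.inv x i)
    have h1 := ac_conj (Function.update x i (x i)⁻¹) i g
    rw [Function.update_self, Function.update_idem] at h1
    refine (h0.trans h1).trans ?_
    conv_rhs => rw [e1 (g * (x i)⁻¹ * g⁻¹)]
    apply ac_set
    rw [hK, Function.update_self]
    exact h

theorem chain_ac {a : ℕ} {x y : Fin n → G} (h : Chain GMove a x y) : AC x y := by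
  induction a generalizing x with
  | zero => exact (show x = y from h) ▸ AC.refl x
  | succ a ih =>
    obtain ⟨w, hw, hw'⟩ := h
    exact (gm_ac hw).trans (ih hw')

/-! ### homomorphisms -/

theorem K_map {H : Type*} [Group H] (f : G →* H) (x : Fin n → G) (i : Fin n) {k : G}
    (hk : k ∈ K x i) : f k ∈ K (f ∘ x) i := by
  have h1 : K x i ≤ (K (f ∘ x) i).comap f := by
    apply K_le
    intro j hj
    exact mem_K (x := f ∘ x) hj
  exact h1 hk

theorem K_map_surj {H : Type*} [Group H] (f : G →* H) (hf : Function.Surjective f)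
    (x : Fin n → G) (i : Fin n) {k : H} (hk : k ∈ K (f ∘ x) i) : ∃ k' ∈ K x i, f k' = k := by
  have hn : ((K x i).map f).Normal := (K_normal x i).map f hf
  have h1 : K (f ∘ x) i ≤ (K x i).map f := by
    apply K_le
    intro j hj
    exact ⟨x j, mem_K hj, rfl⟩
  obtain ⟨k', hk', h2⟩ := h1 hk
  exact ⟨k', hk', h2⟩

theorem gm_map {H : Type*} [Group H] (f : G →* H) {x y : Fin n → G} (h : GMove x y) :
    GMove (f ∘ x) (f ∘ y) := by
  obtain ⟨i, g, k, hk, h⟩ := h
  refine ⟨i, f g, f k, K_map f x i hk, ?_⟩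
  rcases h with rfl | rfl
  · left
    rw [Function.comp_update, map_mul, map_mul, map_mul, map_inv]
    rfl
  · right
    rw [Function.comp_update, map_mul, map_mul, map_mul, map_inv, map_inv]
    rfl

theorem gm_lift {H : Type*} [Group H] (f : G →* H) (hf : Function.Surjective f)
    {x : Fin n → G} {b : Fin n → H} (h : GMove (f ∘ x) b) : ∃ y, GMove x y ∧ f ∘ y = b := by
  obtain ⟨i, g, k, hk, h⟩ := h
  obtain ⟨g, rfl⟩ := hf g
  obtain ⟨k', hk', rfl⟩ := K_map_surj f hf x i hk
  rcases h with rfl | rfl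
  · refine ⟨_, ⟨i, g, k', hk', Or.inl rfl⟩, ?_⟩
    rw [Function.comp_update, map_mul, map_mul, map_mul, map_inv]
    rfl
  · refine ⟨_, ⟨i, g, k', hk', Or.inr rfl⟩, ?_⟩
    rw [Function.comp_update, map_mul, map_mul, map_mul, map_inv, map_inv]
    rfl

theorem chain_map {H : Type*} [Group H] (f : G →* H) {a : ℕ} {x y : Fin n → G}
    (h : Chain GMove a x y) : Chain GMove a (f ∘ x) (f ∘ y) := by
  induction a generalizing x with
  | zero => exact (show x = y from h) ▸ rfl
  | succ a ih =>
    obtain ⟨w, hw, hw'⟩ := h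
    exact ⟨f ∘ w, gm_map f hw, ih hw'⟩

theorem chain_lift {H : Type*} [Group H] (f : G →* H) (hf : Function.Surjective f)
    {a : ℕ} {x : Fin n → G} {b : Fin n → H} (h : Chain GMove a (f ∘ x) b) :
    ∃ y, Chain GMove a x y ∧ f ∘ y = b := by
  induction a generalizing x with
  | zero => exact ⟨x, rfl, h⟩
  | succ a ih =>
    obtain ⟨w, hw, hw'⟩ := h
    obtain ⟨z, hz, rfl⟩ := gm_lift f hf hw
    obtain ⟨y, hy, hy'⟩ := ih hw'
    exact ⟨y, ⟨z, hz, hy⟩, hy'⟩

end Pool.Agent.PAC
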