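import Pool.Agent.Lib_helper21.PAC.Layers

/-!
# Bass' argument with the number of moves: finite spectrum
-/

set_option autoImplicit false

namespace Pool.Agent.PAC

open Pool.Agent.ACB

universe u

variable {G : Type u} [Group G] {n : ℕ} {e : Fin n → G}

theorem bass_fin (he : Subgroup.closure (Set.range e) = ⊤) {N : Subgroup G} [N.Normal]
    (hN : N ≤ ⁅⁅commutator G, (⊤ : Subgroup G)⁆, ⁅commutator G, (⊤ : Subgroup G)⁆⁆)
    (hfin : (Spec e N).Finite) (hn : 2 ≤ n) :
    ∃ ws : Fin n → G, ∀ z : Fin n → G, Cong N z e →
      (∀ L ∈ Spec e N, ∃ l, ¬ Fixes (z l) L) → Chain GMove (n + 1) z ws := by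
  have hNc : N ≤ commutator G := by
    refine hN.trans ?_
    refine (Subgroup.commutator_mono le_top le_top).trans le_rfl
  set q : Fin n := ⟨n - 1, by omega⟩ with hq
  set p : Fin n := ⟨0, by omega⟩ with hp
  have hpq : p ≠ q := by
    intro h
    have := congrArg Fin.val h
    simp only [hp, hq] at this
    omega
  obtain ⟨κ, hκ, hκS⟩ := crt (e := e) (N := N) (H := ⊤) hNc hfin (fun L hL => by
    refine ⟨hL.1, hL.2, ?_⟩
    by_contra hcon
    push Not at hcon
    exact hL.1.not_le_fix (fun g _ => hcon g (Subgroup.mem_top g))) (e q)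
  set w : G := e q * κ with hw
  refine ⟨Function.update e q w, ?_⟩
  intro z hz hzL
  set H : Subgroup G := Subgroup.normalClosure {z q} with hH
  obtain ⟨k, hk, hkS⟩ := crt (e := e) (N := N) (H := H) hNc
    (S := {L | L ∈ Spec e N ∧ ¬ Fixes (z q) L}) (hfin.subset fun L hL => hL.1)
    (fun L hL => ⟨hL.1.1, hL.1.2, z q,
      Subgroup.subset_normalClosure (Set.mem_singleton _), hL.2⟩) (z p)
  have hHK : H ≤ K z p := by
    rw [hH]
    apply Subgroup.normalClosure_le_normal
    rw [Set.singleton_subset_iff]
    exact mem_K hpq.symm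
  set z1 : Fin n → G := Function.update z p (z p * k) with hz1
  have g1 : GMove z z1 := gm_mul (hHK hk.2)
  have hz1e : Cong N z1 e := by
    intro i
    by_cases hi : i = p
    · subst hi
      rw [hz1, Function.update_self]
      have h1 : (z p * k)⁻¹ * e p = k⁻¹ * ((z p)⁻¹ * e p) := by group
      rw [h1]
      exact N.mul_mem (N.inv_mem hk.1) (hz p)
    · rw [hz1, Function.update_of_ne hi]
      exact hz i
  have hNK : N ≤ K z1 q := by
    by_contra hcon
    obtain ⟨L, hL, hNL, hfix⟩ := perfect_step he hN hz1e q hcon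
    by_cases hfq : Fixes (z q) L
    · obtain ⟨l, hl⟩ := hzL L ⟨hL, hNL⟩
      have hlq : l ≠ q := fun h => hl (h ▸ hfq)
      apply hl
      have h1 := hfix l hlq
      by_cases hlp : l = p
      · subst hlp
        rw [hz1, Function.update_self] at h1
        have hHF : H ≤ Fix L hL.normal := by
          rw [hH]
          apply Subgroup.normalClosure_le_normal
          rw [Set.singleton_subset_iff]
          exact hfq
        have h2 := Fixes.mul hL.normal h1 (Fixes.inv hL.normal (hHF hk.2))
        rwa [mul_inv_cancel_right] at h2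
      · rwa [hz1, Function.update_of_ne hlp] at h1
    · apply hkS L ⟨⟨hL, hNL⟩, hfq⟩
      have h1 := hfix p hpq
      rwa [hz1, Function.update_self] at h1
  set z2 : Fin n → G := Function.update z1 q w with hz2
  have g2 : GMove z1 z2 := by
    apply gm_set
    apply hNK
    have h1 : (z1 q)⁻¹ * w = (z1 q)⁻¹ * e q * κ := by rw [hw]; group
    rw [h1]
    exact N.mul_mem (hz1e q) hκ.1
  have hz2e : Cong N z2 e := by
    intro i
    by_cases hi : i = q
    · subst hi
      rw [hz2, Function.update_self]
      have h1 : w⁻¹ * e q = κ⁻¹ := by rw [hw]; group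
      rw [h1]
      exact N.inv_mem hκ.1
    · rw [hz2, Function.update_of_ne hi]
      exact hz1e i
  have g3 := seq_upto (e := e) (P := fun x => Cong N x e ∧ x q = w) (t := n - 1) (by omega)
    (fun x hx j hj => by
      have hjq : j ≠ q := by
        intro h
        rw [h] at hj
        simp only [hq] at hj
        omega
      refine ⟨gm_set ?_, fun i => ?_, ?_⟩
      · have hNKx : N ≤ K x j := by
          by_contra hcon
          obtain ⟨L, hL, hNL, hfix⟩ := perfect_step he hN hx.1 j hcon
          apply hκS L ⟨hL, hNL⟩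
          have h1 := hfix q hjq.symm
          rwa [hx.2] at h1
        exact hNKx (hx.1 j)
      · by_cases hi : i = j
        · subst hi
          rw [Function.update_self, inv_mul_cancel]
          exact N.one_mem
        · rw [Function.update_of_ne hi]
          exact hx.1 i
      · rw [Function.update_of_ne hjq.symm]
        exact hx.2) (x := z2) ⟨hz2e, by rw [hz2, Function.update_self]⟩
  have h4 : (fun i : Fin n => if i.val < n - 1 then e i else z2 i) = Function.update e q w := by
    funext i
    by_cases hi : i = q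
    · subst hi
      rw [Function.update_self, if_neg (by simp only [hq]; omega), hz2, Function.update_self]
    · rw [Function.update_of_ne hi, if_pos]
      have h1 : i.val ≠ n - 1 := fun h => hi (Fin.ext h)
      have := i.2
      omega
  rw [h4] at g3
  have h5 := (Chain.one g1).trans ((Chain.one g2).trans g3)
  have h6 : 1 + (1 + (n - 1)) = n + 1 := by omega
  rwa [h6] at h5

theorem spec_move {N : Subgroup G} {x : Fin n → G}
    (hx : Subgroup.normalClosure (Set.range x) = ⊤) : ∀ L ∈ Spec e N, ∃ l, ¬ Fixes (x l) L := by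
  intro L hL
  by_contra hcon
  push Not at hcon
  apply hL.1.not_le_fix
  have h1 : Subgroup.normalClosure (Set.range x) ≤ Fix L hL.1.normal := by
    apply Subgroup.normalClosure_le_normal
    rintro _ ⟨l, rfl⟩
    exact hcon l
  rw [hx] at h1
  exact le_top.trans h1

theorem chain_fin (he : Subgroup.closure (Set.range e) = ⊤) {N : Subgroup G} [N.Normal]
    (hN : N ≤ ⁅⁅commutator G, (⊤ : Subgroup G)⁆, ⁅commutator G, (⊤ : Subgroup G)⁆⁆)
    (hfin : (Spec e N).Finite) (hn : 2 ≤ n) {z : Fin n → G} (hz : Cong N z e)
    (hzg : Subgroup.normalClosure (Set.range z) = ⊤) : Chain GMove (2 * n + 2) z e := by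
  have heg : Subgroup.normalClosure (Set.range e) = ⊤ := by
    rw [eq_top_iff, ← he]
    exact Subgroup.closure_le_normalClosure
  obtain ⟨ws, hws⟩ := bass_fin he hN hfin hn
  have h1 := hws z hz (spec_move hzg)
  have h2 := hws e (Cong.refl N e) (spec_move heg)
  have h3 := h1.trans (h2.symm fun _ _ h => gm_symm h)
  have h4 : n + 1 + (n + 1) = 2 * n + 2 := by omega
  rwa [h4] at h3

/-- The nonabelian part: `4 n + 2` moves. -/
theorem chain_comm (he : Subgroup.closure (Set.range e) = ⊤)
    (hfin : {L : Subgroup G | IsPoint e L}.Finite) (hn : 2 ≤ n) {x : Fin n → G}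
    (hx : Cong (commutator G) x e)
    (hxg : Subgroup.normalClosure (Set.range x) = ⊤) : Chain GMove (4 * n + 2) x e := by
  obtain ⟨y, hy, hye⟩ := two_layers he hx
  have hyg : Subgroup.normalClosure (Set.range y) = ⊤ := by
    rw [← (chain_ac hy).normalClosure_eq]
    exact hxg
  have h1 := hy.trans (chain_fin he le_rfl (hfin.subset fun L hL => hL.1) hn hye hyg)
  have h4 : n + n + (2 * n + 2) = 4 * n + 2 := by omega
  rwa [h4] at h1

end Pool.Agent.PAC
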