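import Pool.Agent.Lib_helper21.PAC.BassFin

/-!
# Bass' argument with the number of moves: spectrum of small dimension
-/

set_option autoImplicit false

namespace Pool.Agent.PAC

open Pool.Agent.ACB

open scoped commutatorElement

universe u

variable {G : Type u} [Group G] {n : ℕ} {e : Fin n → G}

/-- The number of moves. -/
def cnt : ℕ → ℕ
  | 0 => 1
  | i + 1 => i + 1 + 1 + cnt i

theorem cnt_eq (i : ℕ) : 2 * cnt i = (i + 1) * (i + 2) := by
  induction i with
  | zero => rfl
  | succ i ih =>
    show 2 * (i + 1 + 1 + cnt i) = _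
    rw [Nat.mul_add, ih]
    ring

theorem bass_step_chain {N : Subgroup G} [N.Normal] (hN : N ≤ commutator G) {i : ℕ} (hi : i < n)
    {F : Set (Subgroup G)} (hF : F ⊆ Spec e N) (hT : Thin i F) {z : Fin n → G}
    (hz : ∀ L ∈ F, ∃ l : Fin n, l.val ≤ i ∧ ¬ Fixes (z l) L) :
    ∃ z' : Fin n → G, Chain GMove i z z' ∧ Cong N z z' ∧ (∀ l : Fin n, i ≤ l.val → z' l = z l) ∧
      ∀ L ∈ F, ∃ l : Fin n, l.val < i ∧ ¬ Fixes (z' l) L := by
  set H : Subgroup G := Subgroup.normalClosure {z ⟨i, hi⟩} with hH
  have key : ∀ t : ℕ, t ≤ i → ∃ z' : Fin n → G, Chain GMove t z z' ∧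
      (∀ l, (z l)⁻¹ * z' l ∈ N ⊓ H) ∧ (∀ l : Fin n, t ≤ l.val → z' l = z l) ∧
      Thin (i - t) {L | L ∈ F ∧ ¬ Fixes (z ⟨i, hi⟩) L ∧
        ∀ l : Fin n, l.val < t → Fixes (z' l) L} := by
    intro t
    induction t with
    | zero =>
      intro _
      refine ⟨z, rfl, fun l => ?_, fun l _ => rfl, ?_⟩
      · rw [inv_mul_cancel]; exact Subgroup.one_mem _
      · exact hT.mono (fun L hL => hL.1)
    | succ t ih =>
      intro ht
      obtain ⟨z', hac, hcong, hsame, hthin⟩ := ih (by omega)
      have hti : i - t = (i - (t + 1)) + 1 := by omega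
      rw [hti] at hthin
      obtain ⟨S, hSf, hSY, hS⟩ := hthin _ le_rfl
      have htn : t < n := by omega
      obtain ⟨k, hk, hkS⟩ := crt (e := e) (N := N) (H := H) hN hSf (fun L hL => by
        have h1 := hSY hL
        exact ⟨(hF h1.1).1, (hF h1.1).2, z ⟨i, hi⟩,
          Subgroup.subset_normalClosure (Set.mem_singleton _), h1.2.1⟩) (z' ⟨t, htn⟩)
      have hne : (⟨i, hi⟩ : Fin n) ≠ ⟨t, htn⟩ := by
        intro h
        have := congrArg Fin.val h
        simp only at this
        omega
      have hHK : H ≤ K z' ⟨t, htn⟩ := by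
        rw [hH]
        apply Subgroup.normalClosure_le_normal
        rw [Set.singleton_subset_iff]
        have h1 := mem_K (x := z') hne
        rw [hsame ⟨i, hi⟩ (by simp only; omega)] at h1
        exact h1
      refine ⟨Function.update z' ⟨t, htn⟩ (z' ⟨t, htn⟩ * k), hac.trans (Chain.one (gm_mul (hHK hk.2))), ?_, ?_, ?_⟩
      · intro l
        by_cases hl : l = ⟨t, htn⟩
        · subst hl
          rw [Function.update_self, hsame _ (le_refl t), inv_mul_cancel_left]
          exact hk
        · rw [Function.update_of_ne hl]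
          exact hcong l
      · intro l hl
        have hl' : l ≠ ⟨t, htn⟩ := by
          intro h
          rw [h] at hl
          simp only at hl
          omega
        rw [Function.update_of_ne hl']
        exact hsame l (by omega)
      · apply (hS (z' ⟨t, htn⟩ * k) hkS).mono
        rintro L ⟨hLF, hLz, hLl⟩
        refine ⟨⟨hLF, hLz, fun l hl => ?_⟩, ?_⟩
        · have hl' : l ≠ ⟨t, htn⟩ := by
            intro h
            rw [h] at hl
            simp only at hl
            omega
          have := hLl l (by omega)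
          rwa [Function.update_of_ne hl'] at this
        · have := hLl ⟨t, htn⟩ (Nat.lt_succ_self t)
          rwa [Function.update_self] at this
  obtain ⟨z', hac, hcong, hsame, hthin⟩ := key i le_rfl
  refine ⟨z', hac, fun l => (hcong l).1, hsame, ?_⟩
  intro L hL
  rw [Nat.sub_self] at hthin
  by_cases hfix : Fixes (z ⟨i, hi⟩) L
  · obtain ⟨l, hl, hlL⟩ := hz L hL
    have hne : l.val ≠ i := by
      intro h
      apply hlL
      have : l = ⟨i, hi⟩ := Fin.ext h
      rw [this]
      exact hfix
    refine ⟨l, by omega, ?_⟩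
    intro h'
    apply hlL
    have hLn := (hF hL).1.normal
    have hHF : H ≤ Fix L hLn := by
      rw [hH]
      apply Subgroup.normalClosure_le_normal
      rw [Set.singleton_subset_iff]
      exact hfix
    have h1 : Fixes ((z l)⁻¹ * z' l) L := hHF (hcong l).2
    have h2 := Fixes.mul hLn h' (Fixes.inv hLn h1)
    have : z' l * ((z l)⁻¹ * z' l)⁻¹ = z l := by group
    rwa [this] at h2
  · by_contra hcon
    push Not at hcon
    have : L ∈ ({L | L ∈ F ∧ ¬ Fixes (z ⟨i, hi⟩) L ∧
        ∀ l : Fin n, l.val < i → Fixes (z' l) L} : Set (Subgroup G)) := ⟨hL, hfix, hcon⟩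
    rw [hthin] at this
    exact this

theorem bass_main_chain (he : Subgroup.closure (Set.range e) = ⊤) {N : Subgroup G} [N.Normal]
    (hN : N ≤ ⁅⁅commutator G, (⊤ : Subgroup G)⁆, ⁅commutator G, (⊤ : Subgroup G)⁆⁆) :
    ∀ i : ℕ, i < n → ∀ w : Fin n → G, Cong N w e →
      Thin i {L | L ∈ Spec e N ∧ ∀ l : Fin n, i < l.val → Fixes (w l) L} →
      ∃ ws : Fin n → G, ∀ z : Fin n → G, Cong N z e → (∀ l : Fin n, i < l.val → z l = w l) →
        (∀ L ∈ Spec e N, ∃ l, ¬ Fixes (z l) L) → Chain GMove (cnt i) z ws := by
  have hNc : N ≤ commutator G := by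
    refine hN.trans ?_
    refine (Subgroup.commutator_mono le_top le_top).trans le_rfl
  intro i
  induction i with
  | zero =>
    intro hi w hw hT
    refine ⟨Function.update w ⟨0, hi⟩ (e ⟨0, hi⟩), ?_⟩
    intro z hz hzw hzL
    have hNK : N ≤ K z ⟨0, hi⟩ := by
      by_contra hcon
      obtain ⟨L, hL, hNL, hfix⟩ := perfect_step he hN hz ⟨0, hi⟩ hcon
      have : L ∈ ({L | L ∈ Spec e N ∧ ∀ l : Fin n, 0 < l.val → Fixes (w l) L} :
          Set (Subgroup G)) := by
        refine ⟨⟨hL, hNL⟩, fun l hl => ?_⟩
        rw [← hzw l hl]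
        apply hfix l
        intro h
        rw [h] at hl
        exact absurd hl (lt_irrefl _)
      rw [hT] at this
      exact this
    have h1 : Chain GMove (cnt 0) z (Function.update z ⟨0, hi⟩ (e ⟨0, hi⟩)) :=
      Chain.one (gm_set (hNK (hz _)))
    have h2 : Function.update z ⟨0, hi⟩ (e ⟨0, hi⟩) = Function.update w ⟨0, hi⟩ (e ⟨0, hi⟩) := by
      funext l
      by_cases hl : l = ⟨0, hi⟩
      · subst hl; rw [Function.update_self, Function.update_self]
      · rw [Function.update_of_ne hl, Function.update_of_ne hl]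
        apply hzw
        have : l.val ≠ 0 := fun h => hl (Fin.ext h)
        omega
    rwa [h2] at h1
  | succ i ih =>
    intro hi w hw hT
    obtain ⟨S, hSf, hSF, hS⟩ := hT _ le_rfl
    obtain ⟨κ, hκ, hκS⟩ := crt (e := e) (N := N) (H := ⊤) hNc hSf (fun L hL => by
      have h1 := hSF hL
      refine ⟨h1.1.1, h1.1.2, ?_⟩
      by_contra hcon
      push Not at hcon
      exact h1.1.1.not_le_fix (fun g _ => hcon g (Subgroup.mem_top g))) (e ⟨i + 1, hi⟩)
    set q : Fin n := ⟨i + 1, hi⟩ with hq
    set w' := Function.update w q (e q * κ) with hw'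
    have hw'c : Cong N w' e := by
      intro l
      by_cases hl : l = q
      · subst hl
        rw [hw', Function.update_self]
        have : (e q * κ)⁻¹ * e q = κ⁻¹ := by group
        rw [this]
        exact N.inv_mem hκ.1
      · rw [hw', Function.update_of_ne hl]
        exact hw l
    obtain ⟨ws, hws⟩ := ih (by omega) w' hw'c (by
      apply (hS (e q * κ) hκS).mono
      rintro L ⟨hLS, hLl⟩
      refine ⟨⟨hLS, fun l hl => ?_⟩, ?_⟩
      · have hl' : l ≠ q := by
          intro h
          rw [h] at hl
          simp only [hq] at hl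
          omega
        have := hLl l (by omega)
        rwa [hw', Function.update_of_ne hl'] at this
      · have := hLl q (by simp only [hq]; omega)
        rwa [hw', Function.update_self] at this)
    refine ⟨ws, ?_⟩
    intro z hz hzw hzL
    obtain ⟨z', hac, hcong, hsame, hlow⟩ := bass_step_chain (e := e) (N := N) hNc hi
      (F := {L | L ∈ Spec e N ∧ ∀ l : Fin n, i + 1 < l.val → Fixes (w l) L})
      (fun L hL => hL.1) hT (z := z) (by
        rintro L ⟨hLS, hLw⟩
        obtain ⟨l, hl⟩ := hzL L hLS
        refine ⟨l, ?_, hl⟩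
        by_contra hcon
        push Not at hcon
        apply hl
        rw [hzw l hcon]
        exact hLw l hcon)
    have hz'e : Cong N z' e := hcong.symm.trans hz
    have hNK : N ≤ K z' q := by
      by_contra hcon
      obtain ⟨L, hL, hNL, hfix⟩ := perfect_step he hN hz'e q hcon
      have hLF : L ∈ ({L | L ∈ Spec e N ∧ ∀ l : Fin n, i + 1 < l.val → Fixes (w l) L} :
          Set (Subgroup G)) := by
        refine ⟨⟨hL, hNL⟩, fun l hl => ?_⟩
        rw [← hzw l hl, ← hsame l (by omega)]
        apply hfix l
        intro h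
        rw [h] at hl
        simp only [hq] at hl
        omega
      obtain ⟨l, hl, hlL⟩ := hlow L hLF
      apply hlL
      apply hfix l
      intro h
      rw [h] at hl
      simp only [hq] at hl
      omega
    have hset : GMove z' (Function.update z' q (e q * κ)) := by
      apply gm_set
      apply hNK
      have : (z' q)⁻¹ * (e q * κ) = (z' q)⁻¹ * e q * κ := by group
      rw [this]
      exact N.mul_mem (hz'e q) hκ.1
    refine (hac.trans (Chain.one hset)).trans (hws _ ?_ ?_ ?_)
    · intro l
      by_cases hl : l = q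
      · subst hl
        rw [Function.update_self]
        have : (e q * κ)⁻¹ * e q = κ⁻¹ := by group
        rw [this]
        exact N.inv_mem hκ.1
      · rw [Function.update_of_ne hl]
        exact hz'e l
    · intro l hl
      by_cases hlq : l = q
      · subst hlq
        rw [hw', Function.update_self, Function.update_self]
      · rw [hw', Function.update_of_ne hlq, Function.update_of_ne hlq]
        have h1 : l.val ≠ i + 1 := fun h => hlq (Fin.ext h)
        rw [hsame l (by omega)]
        exact hzw l (by omega)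
    · intro L hLS
      by_cases hLF : ∀ l : Fin n, i + 1 < l.val → Fixes (w l) L
      · obtain ⟨l, hl, hlL⟩ := hlow L ⟨hLS, hLF⟩
        refine ⟨l, ?_⟩
        have hlq : l ≠ q := by
          intro h
          rw [h] at hl
          simp only [hq] at hl
          omega
        rwa [Function.update_of_ne hlq]
      · push Not at hLF
        obtain ⟨l, hl, hlL⟩ := hLF
        refine ⟨l, ?_⟩
        have hlq : l ≠ q := by
          intro h
          rw [h] at hl
          simp only [hq] at hl
          omega
        rw [Function.update_of_ne hlq, hsame l (by omega), hzw l hl]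
        exact hlL


/-- If the whole nonabelian spectrum has dimension `< n - 1`, then `n ^ 2 + 3 n` moves suffice. -/
theorem chain_thin (he : Subgroup.closure (Set.range e) = ⊤)
    (hT : Thin (n - 1) {L : Subgroup G | IsPoint e L}) {x : Fin n → G}
    (hx : Cong (commutator G) x e)
    (hxg : Subgroup.normalClosure (Set.range x) = ⊤) : Chain GMove (n ^ 2 + 3 * n) x e := by
  rcases Nat.eq_zero_or_pos n with hn | hn
  · subst hn
    have h0 : x = e := Subsingleton.elim _ _
    rw [h0]
    rfl
  obtain ⟨y, hy, hye⟩ := two_layers he hx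
  have hyg : Subgroup.normalClosure (Set.range y) = ⊤ := by
    rw [← (chain_ac hy).normalClosure_eq]
    exact hxg
  have heg : Subgroup.normalClosure (Set.range e) = ⊤ := by
    rw [eq_top_iff, ← he]
    exact Subgroup.closure_le_normalClosure
  obtain ⟨ws, hws⟩ := bass_main_chain he
    (N := ⁅⁅commutator G, (⊤ : Subgroup G)⁆, ⁅commutator G, (⊤ : Subgroup G)⁆⁆) le_rfl
    (n - 1) (by omega) e (Cong.refl _ e) (hT.mono (fun L hL => hL.1.1))
  have h1 := hws y hye (fun l hl => absurd hl (by have := l.isLt; omega)) (spec_move hyg)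
  have h2 := hws e (Cong.refl _ e) (fun l hl => rfl) (spec_move heg)
  have h3 := hy.trans (h1.trans (h2.symm fun _ _ h => gm_symm h))
  have h4 : n + n + (cnt (n - 1) + cnt (n - 1)) = n ^ 2 + 3 * n := by
    have h5 := cnt_eq (n - 1)
    have h6 : n - 1 + 1 = n := by omega
    have h7 : n - 1 + 2 = n + 1 := by omega
    rw [h6, h7] at h5
    have h8 : cnt (n - 1) + cnt (n - 1) = n * (n + 1) := by rw [← h5]; ring
    rw [h8]
    ring
  rwa [h4] at h3

end Pool.Agent.PAC
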