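import Pool.Agent.Lib_helper60.ACB.Point

/-!
# Generalised Andrews-Curtis moves and their number
-/

set_option autoImplicit false

namespace Pool.Agent.PAC

open Pool.Agent.ACB

universe u

/-- `Chain R m x y`: there is a chain of `m` steps of the relation `R` from `x` to `y`. -/
def Chain {α : Type*} (R : α → α → Prop) : ℕ → α → α → Prop
  | 0, x, y => x = y
  | m + 1, x, y => ∃ z, R x z ∧ Chain R m z y

/-- A generalised Andrews-Curtis move on `n`-tuples of elements of `G`: one entry `x i` is replaced
by `g * x i * g⁻¹ * k` or by `g * (x i)⁻¹ * g⁻¹ * k`, where `k` lies in the normal closure of the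
other entries. -/
def GMove {G : Type u} [Group G] {n : ℕ} (x y : Fin n → G) : Prop :=
  ∃ (i : Fin n) (g k : G), k ∈ K x i ∧
    (y = Function.update x i (g * x i * g⁻¹ * k) ∨ y = Function.update x i (g * (x i)⁻¹ * g⁻¹ * k))

/-- A generalised Andrews-Curtis move in a topological group: `k` lies in the closure of the normal
closure of the other entries. -/
def TMove {G : Type u} [Group G] [TopologicalSpace G] {n : ℕ} (x y : Fin n → G) : Prop :=
  ∃ (i : Fin n) (g k : G), k ∈ closure (K x i : Set G) ∧
    (y = Function.update x i (g * x i * g⁻¹ * k) ∨ y = Function.update x i (g * (x i)⁻¹ * g⁻¹ * k))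

end Pool.Agent.PAC
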