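import Pool.Agent.Lib_helper21.PAC.BassThin
import Pool.Agent.Lib_helper21.PAC.Abel
import Pool.Agent.Lib_helper60.ACBF.ST

/-!
# Finite groups: at most `8 n` generalised moves
-/

set_option autoImplicit false

namespace Pool.Agent.PAC

open Pool.Agent.ACB

universe u

section

variable {G : Type u} [Group G] {n : ℕ} {e : Fin n → G}

/-- The abelian part: `4 n - 2` moves. -/
theorem ab_part {m : ℕ} (hm : 0 < m) (hA : ∀ g : G, g ^ m ∈ commutator G) (hn : 1 ≤ n)
    {x y : Fin n → G}
    (hab : AC (fun i => Abelianization.of (x i)) (fun i => Abelianization.of (y i))) :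
    ∃ z, Chain GMove (4 * n - 2) x z ∧ Cong (commutator G) z y := by
  have hsurj : Function.Surjective (Abelianization.of : G →* Abelianization G) :=
    QuotientGroup.mk'_surjective _
  have hA' : ∀ a : Abelianization G, a ^ m = 1 := by
    intro a
    obtain ⟨g, rfl⟩ := hsurj a
    rw [← map_pow, ← MonoidHom.mem_ker, Abelianization.ker_of]
    exact hA g
  have h1 := abelian_bound hm hA' hn hab
  obtain ⟨z, hz, hz'⟩ := chain_lift (Abelianization.of : G →* Abelianization G) hsurj
    (x := x) (b := fun i => Abelianization.of (y i)) h1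
  refine ⟨z, hz, ?_⟩
  exact mn_cong_of_eq (Abelianization.of : G →* Abelianization G) (y := z) (e := y) hz'
    (Abelianization.ker_of G).le

/-- For one generator everything is abelian. -/
theorem comm_one (he : Subgroup.closure (Set.range e) = ⊤) (hn : n = 1) : commutator G = ⊥ := by
  subst hn
  rw [commutator_def, Subgroup.commutator_eq_bot_iff_le_centralizer, ← he]
  have h1 : Set.range e ⊆ {e 0} := by
    rintro _ ⟨i, rfl⟩
    rw [Subsingleton.elim i 0]
    exact Set.mem_singleton _
  have h2 : Set.range e = {e 0} := by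
    apply Set.Subset.antisymm h1
    rw [Set.singleton_subset_iff]
    exact ⟨0, rfl⟩
  rw [h2, Subgroup.closure_le]
  intro g hg
  rw [Set.mem_singleton_iff] at hg
  subst hg
  rw [SetLike.mem_coe, Subgroup.mem_centralizer_iff]
  intro h hh
  obtain ⟨k, rfl⟩ := Subgroup.mem_closure_singleton.mp hh
  group

/-- Finitely many nonabelian points: `4 n + 2` moves. -/
theorem fin_comm (he : Subgroup.closure (Set.range e) = ⊤)
    (hfin : {L : Subgroup G | IsPoint e L}.Finite) (hn : 1 ≤ n) {x : Fin n → G}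
    (hx : Cong (commutator G) x e)
    (hxg : Subgroup.normalClosure (Set.range x) = ⊤) : Chain GMove (4 * n + 2) x e := by
  rcases Nat.lt_or_ge n 2 with hn' | hn'
  · have h2 := comm_one he (by omega)
    have h3 : x = e := by
      funext i
      have := hx i
      rw [h2, Subgroup.mem_bot, inv_mul_eq_one] at this
      exact this
    rw [h3]
    exact Chain.mono (gm_refl (by omega)) (Nat.zero_le _) (show e = e from rfl)
  · exact chain_comm he hfin hn' hx hxg

/-- `8 n` moves if the abelianization has finite exponent and the nonabelian spectrum is finite. -/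
theorem fin_main {m : ℕ} (hm : 0 < m) (hA : ∀ g : G, g ^ m ∈ commutator G)
    (he : Subgroup.closure (Set.range e) = ⊤)
    (hfin : {L : Subgroup G | IsPoint e L}.Finite) {x : Fin n → G}
    (hxg : Subgroup.normalClosure (Set.range x) = ⊤)
    (hab : AC (fun i => Abelianization.of (x i)) (fun i => Abelianization.of (e i))) :
    Chain GMove (8 * n) x e := by
  rcases Nat.eq_zero_or_pos n with hn | hn
  · subst hn
    exact Subsingleton.elim x e
  · obtain ⟨z, hz, hze⟩ := ab_part hm hA hn hab
    have hzg : Subgroup.normalClosure (Set.range z) = ⊤ := by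
      rw [← (chain_ac hz).normalClosure_eq]
      exact hxg
    have h1 := hz.trans (fin_comm he hfin hn hze hzg)
    have h2 : 4 * n - 2 + (4 * n + 2) = 8 * n := by omega
    rwa [h2] at h1

theorem finite_main [Finite G] (he : Subgroup.closure (Set.range e) = ⊤) {x : Fin n → G}
    (hxg : Subgroup.normalClosure (Set.range x) = ⊤)
    (hab : AC (fun i => Abelianization.of (x i)) (fun i => Abelianization.of (e i))) :
    Chain GMove (8 * n) x e :=
  fin_main (m := Nat.card G) Nat.card_pos (fun g => by rw [pow_card_eq_one']; exact one_mem _) he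
    (Set.toFinite _) hxg hab

end

section Gaschutz

variable {G : Type u} [Group G] {n : ℕ}

/-- tuples congruent to `x` modulo `N` with all entries in `H` -/
abbrev TIn (N : Subgroup G) (x : Fin n → G) (H : Subgroup G) : Type u :=
  {y : Fin n → G // Cong N x y ∧ ∀ i, y i ∈ H}

/-- tuples congruent to `x` modulo `N` which generate `H` -/
abbrev TGen (N : Subgroup G) (x : Fin n → G) (H : Subgroup G) : Type u :=
  {y : Fin n → G // Cong N x y ∧ Subgroup.closure (Set.range y) = H}

/-- `TIn` is the disjoint union of `TGen` over the subgroups. -/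
def tinEquiv (N : Subgroup G) (x : Fin n → G) (H : Subgroup G) :
    TIn N x H ≃ Σ H' : {H' : Subgroup G // H' ≤ H}, TGen N x H'.1 where
  toFun y := ⟨⟨Subgroup.closure (Set.range y.1), by
    rw [Subgroup.closure_le]; rintro _ ⟨i, rfl⟩; exact y.2.2 i⟩, ⟨y.1, y.2.1, rfl⟩⟩
  invFun z := ⟨z.2.1, z.2.2.1, fun i =>
    z.1.2 (z.2.2.2.le (Subgroup.subset_closure ⟨i, rfl⟩))⟩
  left_inv y := rfl
  right_inv z := by
    obtain ⟨⟨H', hH'⟩, ⟨y, hy, (hy' : Subgroup.closure (Set.range y) = H')⟩⟩ := z
    subst hy'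
    rfl

theorem sup_top_of_tgen {N : Subgroup G} [N.Normal] {x : Fin n → G}
    (hx : Subgroup.closure (Set.range x) ⊔ N = ⊤) {H : Subgroup G} (y : TGen N x H) :
    H ⊔ N = ⊤ := by
  obtain ⟨y, hy, hy'⟩ := y
  rw [eq_top_iff, ← hx]
  apply sup_le _ le_sup_right
  rw [Subgroup.closure_le]
  rintro _ ⟨i, rfl⟩
  have h1 : x i = y i * ((x i)⁻¹ * y i)⁻¹ := by group
  rw [h1]
  apply Subgroup.mul_mem
  · apply Subgroup.mem_sup_left
    rw [← hy']
    exact Subgroup.subset_closure ⟨i, rfl⟩
  · apply Subgroup.mem_sup_right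
    exact N.inv_mem (hy i)

theorem exists_in {N : Subgroup G} [N.Normal] {H : Subgroup G} (hH : H ⊔ N = ⊤)
    (x : Fin n → G) : ∃ h : Fin n → G, Cong N x h ∧ ∀ i, h i ∈ H := by
  have key : ∀ g : G, ∃ h ∈ H, g⁻¹ * h ∈ N := by
    intro g
    have h1 : g ∈ H ⊔ N := hH ▸ Subgroup.mem_top g
    obtain ⟨h, hh, k, hk, rfl⟩ := Subgroup.mem_sup_of_normal_right.mp h1
    refine ⟨h, hh, ?_⟩
    have h2 : (h * k)⁻¹ * h = k⁻¹ := by group
    rw [h2]
    exact N.inv_mem hk
  choose h hh hh' using key
  exact ⟨fun i => h (x i), fun i => hh' (x i), fun i => hh (x i)⟩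

theorem card_tin {N : Subgroup G} [N.Normal] {H : Subgroup G} (hH : H ⊔ N = ⊤)
    (x x' : Fin n → G) : Nonempty (TIn N x H ≃ TIn N x' H) := by
  obtain ⟨h, hx, hh⟩ := exists_in hH x
  obtain ⟨h', hx', hh'⟩ := exists_in hH x'
  have key : ∀ {x x' h h' : Fin n → G}, Cong N x h → Cong N x' h' → (∀ i, h i ∈ H) →
      (∀ i, h' i ∈ H) → ∀ y : Fin n → G, Cong N x y ∧ (∀ i, y i ∈ H) →
      Cong N x' (fun i => h' i * (h i)⁻¹ * y i) ∧ ∀ i, h' i * (h i)⁻¹ * y i ∈ H := by
    intro x x' h h' hx hx' hh hh' y hy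
    refine ⟨fun i => ?_, fun i => H.mul_mem (H.mul_mem (hh' i) (H.inv_mem (hh i))) (hy.2 i)⟩
    have h1 : (x' i)⁻¹ * (h' i * (h i)⁻¹ * y i) =
        ((x' i)⁻¹ * h' i) * (((x i)⁻¹ * h i)⁻¹ * ((x i)⁻¹ * y i)) := by group
    rw [h1]
    exact N.mul_mem (hx' i) (N.mul_mem (N.inv_mem (hx i)) (hy.1 i))
  exact ⟨{
    toFun := fun y => ⟨_, key hx hx' hh hh' y.1 y.2⟩
    invFun := fun y => ⟨_, key hx' hx hh' hh y.1 y.2⟩
    left_inv := fun y => by
      apply Subtype.ext
      funext i
      show h i * (h' i)⁻¹ * (h' i * (h i)⁻¹ * y.1 i) = y.1 i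
      group
    right_inv := fun y => by
      apply Subtype.ext
      funext i
      show h' i * (h i)⁻¹ * (h i * (h' i)⁻¹ * y.1 i) = y.1 i
      group }⟩

theorem gaschutz_card [Finite G] {N : Subgroup G} [N.Normal] {x x' : Fin n → G}
    (hx : Subgroup.closure (Set.range x) ⊔ N = ⊤) (hx' : Subgroup.closure (Set.range x') ⊔ N = ⊤) :
    ∀ H : Subgroup G, Nat.card (TGen N x H) = Nat.card (TGen N x' H) := by
  have hfin : ∀ (z : Fin n → G) (H : Subgroup G), Finite (TGen N z H) := fun z H =>
    inferInstanceAs (Finite {y : Fin n → G // _})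
  intro H
  induction H using WellFoundedLT.induction with
  | ind H ih =>
    by_cases hH : H ⊔ N = ⊤
    · obtain ⟨eq⟩ := card_tin hH x x'
      have h1 : Nat.card (Σ H' : {H' : Subgroup G // H' ≤ H}, TGen N x H'.1) =
          Nat.card (Σ H' : {H' : Subgroup G // H' ≤ H}, TGen N x' H'.1) := by
        rw [← Nat.card_congr (tinEquiv N x H), ← Nat.card_congr (tinEquiv N x' H)]
        exact Nat.card_congr eq
      have := Fintype.ofFinite {H' : Subgroup G // H' ≤ H}
      have : ∀ H' : {H' : Subgroup G // H' ≤ H}, Finite (TGen N x H'.1) := fun H' => hfin _ _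
      have : ∀ H' : {H' : Subgroup G // H' ≤ H}, Finite (TGen N x' H'.1) := fun H' => hfin _ _
      rw [Nat.card_sigma, Nat.card_sigma] at h1
      classical
      rw [← Finset.add_sum_erase _ _ (Finset.mem_univ (⟨H, le_rfl⟩ : {H' : Subgroup G // H' ≤ H})),
        ← Finset.add_sum_erase _ (fun H' : {H' : Subgroup G // H' ≤ H} =>
          Nat.card (TGen N x' H'.1))
          (Finset.mem_univ (⟨H, le_rfl⟩ : {H' : Subgroup G // H' ≤ H}))] at h1
      have h2 : ∑ H' ∈ Finset.univ.erase (⟨H, le_rfl⟩ : {H' : Subgroup G // H' ≤ H}),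
          Nat.card (TGen N x H'.1) =
          ∑ H' ∈ Finset.univ.erase (⟨H, le_rfl⟩ : {H' : Subgroup G // H' ≤ H}),
          Nat.card (TGen N x' H'.1) := by
        refine Finset.sum_congr rfl fun H' hH' => ?_
        rw [Finset.mem_erase] at hH'
        apply ih
        exact lt_of_le_of_ne H'.2 (fun h => hH'.1 (Subtype.ext h))
      rw [h2] at h1
      exact Nat.add_right_cancel h1
    · have h1 : ∀ z : Fin n → G, Subgroup.closure (Set.range z) ⊔ N = ⊤ →
          Nat.card (TGen N z H) = 0 := by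
        intro z hz
        have : IsEmpty (TGen N z H) := ⟨fun y => hH (sup_top_of_tgen hz y)⟩
        exact Nat.card_of_isEmpty
      rw [h1 x hx, h1 x' hx']

/-- Gaschütz' lemma. -/
theorem gaschutz [Finite G] {N : Subgroup G} [N.Normal] {e x : Fin n → G}
    (he : Subgroup.closure (Set.range e) = ⊤)
    (hx : Subgroup.closure (Set.range x) ⊔ N = ⊤) :
    ∃ y : Fin n → G, Cong N x y ∧ Subgroup.closure (Set.range y) = ⊤ := by
  have h1 := gaschutz_card (N := N) (x := x) (x' := e) hx (by rw [he]; exact top_sup_eq _) ⊤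
  have : Finite (TGen N x (⊤ : Subgroup G)) := inferInstanceAs (Finite {y : Fin n → G // _})
  have : Finite (TGen N e (⊤ : Subgroup G)) := inferInstanceAs (Finite {y : Fin n → G // _})
  have h2 : 0 < Nat.card (TGen N e (⊤ : Subgroup G)) := by
    have : Nonempty (TGen N e (⊤ : Subgroup G)) := ⟨⟨e, fun i => by
      rw [inv_mul_cancel]; exact one_mem _, he⟩⟩
    exact Nat.card_pos
  rw [← h1] at h2
  obtain ⟨⟨y, hy, hy'⟩⟩ := (Nat.card_pos_iff.mp h2).1
  exact ⟨y, hy, hy'⟩

/-- Normally generating tuples generate modulo the commutator subgroup. -/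
theorem closure_sup_comm {x : Fin n → G} (hx : Subgroup.normalClosure (Set.range x) = ⊤) :
    Subgroup.closure (Set.range x) ⊔ commutator G = ⊤ := by
  have hn : (Subgroup.closure (Set.range x) ⊔ commutator G).Normal := by
    constructor
    intro g hg h
    have h1 : h * g * h⁻¹ = g * (g⁻¹ * h * g * h⁻¹) := by group
    rw [h1]
    apply Subgroup.mul_mem _ hg
    apply Subgroup.mem_sup_right
    have h2 : g⁻¹ * h * g * h⁻¹ = g⁻¹ * h * (g⁻¹)⁻¹ * h⁻¹ := by group
    rw [h2]
    exact Subgroup.commutator_mem_commutator (Subgroup.mem_top _) (Subgroup.mem_top _)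
  rw [eq_top_iff, ← hx]
  apply Subgroup.normalClosure_le_normal
  intro g hg
  exact Subgroup.mem_sup_left (Subgroup.subset_closure hg)

/-- Two normally generating tuples of a finite `n`-generated group: `12 n + 2` moves. -/
theorem finite_two [Finite G] {e x y : Fin n → G} (he : Subgroup.closure (Set.range e) = ⊤)
    (hxg : Subgroup.normalClosure (Set.range x) = ⊤)
    (hyg : Subgroup.normalClosure (Set.range y) = ⊤)
    (hab : AC (fun i => Abelianization.of (x i)) (fun i => Abelianization.of (y i))) (hn : 1 ≤ n) :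
    Chain GMove (12 * n + 2) x y := by
  obtain ⟨e', he', heg'⟩ := gaschutz he (closure_sup_comm hyg)
  have h1 : (fun i => Abelianization.of (e' i)) = fun i => Abelianization.of (y i) := by
    funext i
    have := he' i
    rw [← Abelianization.ker_of, MonoidHom.mem_ker, map_mul, map_inv, inv_mul_eq_one] at this
    exact this.symm
  have h2 := finite_main heg' hxg (by rw [h1]; exact hab)
  have h3 : Chain GMove (4 * n + 2) y e' := fin_comm heg' (Set.toFinite _) hn he' hyg
  have h4 := h2.trans (h3.symm fun _ _ h => gm_symm h)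
  have h5 : 8 * n + (4 * n + 2) = 12 * n + 2 := by omega
  rwa [h5] at h4

end Gaschutz

end Pool.Agent.PAC
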