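import Pool.Agent.Lib_helper21.PAC.Basic
import Pool.Agent.Lib_helper60.ACBF.MN

/-!
# Abelian layers cost one generalised move per entry
-/

set_option autoImplicit false

namespace Pool.Agent.PAC

open Pool.Agent.ACB

universe u

variable {G : Type u} [Group G] {n : ℕ}

open scoped commutatorElement in
/-- one entry -/
theorem ab_gm {e : Fin n → G} (he : Subgroup.closure (Set.range e) = ⊤)
    {A : Subgroup G} [hAn : A.Normal] (hA : A ≤ commutator G)
    (hab : ∀ a ∈ A, ∀ b ∈ A, a * b = b * a)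
    {x : Fin n → G} (hx : Cong A x e) (j : Fin n) : GMove x (Function.update x j (e j)) := by
  have hgen : ∀ Z : Subgroup G, (∀ i, e i ∈ Z) → Z = ⊤ := by
    intro Z hZ
    rw [eq_top_iff, ← he, Subgroup.closure_le]
    rintro _ ⟨i, rfl⟩
    exact hZ i
  have hKn : (K x j).Normal := K_normal x j
  -- the elements `x_j⁻¹ a x_j a⁻¹`
  let D : Subgroup G :=
    { carrier := {d | ∃ a ∈ A, d = (x j)⁻¹ * a * x j * a⁻¹}
      one_mem' := ⟨1, A.one_mem, by group⟩
      mul_mem' := by
        rintro _ _ ⟨a, ha, rfl⟩ ⟨b, hb, rfl⟩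
        refine ⟨a * b, A.mul_mem ha hb, ?_⟩
        have h1 : (x j)⁻¹ * b * x j ∈ A := by
          have := hAn.conj_mem b hb (x j)⁻¹
          rwa [inv_inv] at this
        have h2 := hab _ (A.inv_mem ha) _ h1
        calc (x j)⁻¹ * a * x j * a⁻¹ * ((x j)⁻¹ * b * x j * b⁻¹) =
            (x j)⁻¹ * a * x j * (a⁻¹ * ((x j)⁻¹ * b * x j)) * b⁻¹ := by group
          _ = (x j)⁻¹ * a * x j * (((x j)⁻¹ * b * x j) * a⁻¹) * b⁻¹ := by rw [h2]
          _ = (x j)⁻¹ * (a * b) * x j * (a⁻¹ * b⁻¹) := by group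
          _ = (x j)⁻¹ * (a * b) * x j * (b⁻¹ * a⁻¹) := by
              rw [hab _ (A.inv_mem ha) _ (A.inv_mem hb)]
          _ = (x j)⁻¹ * (a * b) * x j * (a * b)⁻¹ := by rw [mul_inv_rev]
      inv_mem' := by
        rintro _ ⟨a, ha, rfl⟩
        refine ⟨a⁻¹, A.inv_mem ha, ?_⟩
        have h1 : (x j)⁻¹ * a⁻¹ * x j ∈ A := by
          have := hAn.conj_mem a⁻¹ (A.inv_mem ha) (x j)⁻¹
          rwa [inv_inv] at this
        calc ((x j)⁻¹ * a * x j * a⁻¹)⁻¹ = a * ((x j)⁻¹ * a⁻¹ * x j) := by group
          _ = ((x j)⁻¹ * a⁻¹ * x j) * a := hab _ ha _ h1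
          _ = (x j)⁻¹ * a⁻¹ * x j * a⁻¹⁻¹ := by rw [inv_inv] }
  have hDK : ∀ a ∈ A, ∀ g : G, g * a * g⁻¹ * a⁻¹ ∈ D ⊔ ⁅A, K x j⁆ := by
    let Z : Subgroup G :=
      { carrier := {g | ∀ a ∈ A, g * a * g⁻¹ * a⁻¹ ∈ D ⊔ ⁅A, K x j⁆}
        one_mem' := by
          intro a _
          have : (1 : G) * a * 1⁻¹ * a⁻¹ = 1 := by group
          rw [this]
          exact Subgroup.one_mem _
        mul_mem' := by
          intro g h hg hh a ha
          have h1 := hg _ (hAn.conj_mem a ha h)
          have h2 := hh a ha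
          have h3 : g * h * a * (g * h)⁻¹ * a⁻¹ =
              (g * (h * a * h⁻¹) * g⁻¹ * (h * a * h⁻¹)⁻¹) * (h * a * h⁻¹ * a⁻¹) := by group
          rw [h3]
          exact Subgroup.mul_mem _ h1 h2
        inv_mem' := by
          intro g hg a ha
          have h0 : g⁻¹ * a * g ∈ A := by
            have := hAn.conj_mem a ha g⁻¹
            rwa [inv_inv] at this
          have h1 := Subgroup.inv_mem _ (hg _ h0)
          have h2 : (g * (g⁻¹ * a * g) * g⁻¹ * (g⁻¹ * a * g)⁻¹)⁻¹ = g⁻¹ * a * g⁻¹⁻¹ * a⁻¹ := by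
            group
          rwa [h2] at h1 }
    have hxj : x j ∈ Z := by
      rw [← Z.inv_mem_iff]
      intro a ha
      rw [inv_inv]
      exact Subgroup.mem_sup_left ⟨a, ha, rfl⟩
    have hKZ : K x j ≤ Z := by
      intro g hg a ha
      refine Subgroup.mem_sup_right ?_
      rw [Subgroup.commutator_comm]
      exact Subgroup.commutator_mem_commutator hg ha
    have hAZ : A ≤ Z := by
      intro g hg a ha
      have h1 : g * a * g⁻¹ * a⁻¹ = 1 := by
        rw [hab g hg a ha]
        group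
      rw [h1]
      exact Subgroup.one_mem _
    have hZ : Z = ⊤ := by
      refine hgen Z fun i => ?_
      have h1 : e i = x i * ((x i)⁻¹ * e i) := by group
      rw [h1]
      refine Z.mul_mem ?_ (hAZ (hx i))
      by_cases hij : i = j
      · rw [hij]
        exact hxj
      · exact hKZ (mem_K hij)
    intro a ha g
    have : g ∈ Z := by
      rw [hZ]
      exact Subgroup.mem_top g
    exact this a ha
  have hAG : ⁅A, (⊤ : Subgroup G)⁆ ≤ D ⊔ ⁅A, K x j⁆ := by
    rw [Subgroup.commutator_comm, Subgroup.commutator_le]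
    intro g _ a ha
    exact hDK a ha g
  -- the quotient by `L = K [A, G]` is abelian
  have hcomm : commutator G ≤ K x j ⊔ ⁅A, (⊤ : Subgroup G)⁆ := by
    set L := K x j ⊔ ⁅A, (⊤ : Subgroup G)⁆ with hL
    have hLn : L.Normal := inferInstance
    have hAL : ∀ a ∈ A, ∀ g : G, (a : G ⧸ L) * (g : G ⧸ L) = (g : G ⧸ L) * (a : G ⧸ L) := by
      intro a ha g
      rw [← QuotientGroup.mk_mul, ← QuotientGroup.mk_mul, QuotientGroup.eq]
      have h3 : (a * g)⁻¹ * (g * a) = g⁻¹ * ⁅a⁻¹, g⁆ * g⁻¹⁻¹ := by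
        rw [commutatorElement_def]
        group
      rw [h3]
      exact Subgroup.mem_sup_right ((inferInstance : (⁅A, (⊤ : Subgroup G)⁆).Normal).conj_mem _
        (Subgroup.commutator_mem_commutator (A.inv_mem ha) (Subgroup.mem_top g)) g⁻¹)
    have hei : ∀ i, i ≠ j → ∀ g : G, (e i : G ⧸ L) * (g : G ⧸ L) = (g : G ⧸ L) * (e i : G ⧸ L) := by
      intro i hi g
      have h1 : (e i : G ⧸ L) = (((x i)⁻¹ * e i : G) : G ⧸ L) := by
        rw [QuotientGroup.eq]
        have h2 : (e i)⁻¹ * ((x i)⁻¹ * e i) = (e i)⁻¹ * (x i)⁻¹ * (e i)⁻¹⁻¹ := by group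
        rw [h2]
        exact Subgroup.mem_sup_left (hKn.conj_mem _ ((K x j).inv_mem (mem_K hi)) _)
      rw [h1]
      exact hAL _ (hx i) g
    have hej : ∀ g : G, (e j : G ⧸ L) * (g : G ⧸ L) = (g : G ⧸ L) * (e j : G ⧸ L) := by
      let Z : Subgroup G :=
        { carrier := {g | (e j : G ⧸ L) * (g : G ⧸ L) = (g : G ⧸ L) * (e j : G ⧸ L)}
          one_mem' := by
            show (e j : G ⧸ L) * ((1 : G) : G ⧸ L) = ((1 : G) : G ⧸ L) * (e j : G ⧸ L)
            rw [QuotientGroup.mk_one, mul_one, one_mul]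
          mul_mem' := by
            intro g h hg hh
            have hg' : (e j : G ⧸ L) * (g : G ⧸ L) = (g : G ⧸ L) * (e j : G ⧸ L) := hg
            have hh' : (e j : G ⧸ L) * (h : G ⧸ L) = (h : G ⧸ L) * (e j : G ⧸ L) := hh
            show (e j : G ⧸ L) * ((g * h : G) : G ⧸ L) = ((g * h : G) : G ⧸ L) * (e j : G ⧸ L)
            rw [QuotientGroup.mk_mul, ← mul_assoc, hg', mul_assoc, hh', mul_assoc]
          inv_mem' := by
            intro g hg
            have hg' : (e j : G ⧸ L) * (g : G ⧸ L) = (g : G ⧸ L) * (e j : G ⧸ L) := hg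
            show (e j : G ⧸ L) * ((g⁻¹ : G) : G ⧸ L) = ((g⁻¹ : G) : G ⧸ L) * (e j : G ⧸ L)
            rw [QuotientGroup.mk_inv]
            exact (Commute.inv_right (show Commute (e j : G ⧸ L) (g : G ⧸ L) from hg')) }
      have hZ : Z = ⊤ := by
        refine hgen Z fun i => ?_
        by_cases hij : i = j
        · rw [hij]
          rfl
        · exact (hei i hij (e j)).symm
      intro g
      have : g ∈ Z := by
        rw [hZ]
        exact Subgroup.mem_top g
      exact this
    have hall : ∀ g h : G, (g : G ⧸ L) * (h : G ⧸ L) = (h : G ⧸ L) * (g : G ⧸ L) := by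
      let Z : Subgroup G := (Subgroup.center (G ⧸ L)).comap (QuotientGroup.mk' L)
      have hZ : Z = ⊤ := by
        refine hgen Z fun i => ?_
        show (e i : G ⧸ L) ∈ Subgroup.center (G ⧸ L)
        rw [Subgroup.mem_center_iff]
        intro q
        induction q using QuotientGroup.induction_on with
        | H g =>
          by_cases hij : i = j
          · rw [hij]
            exact (hej g).symm
          · exact (hei i hij g).symm
      intro g h
      have h1 : h ∈ Z := by
        rw [hZ]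
        exact Subgroup.mem_top h
      have h2 : (h : G ⧸ L) ∈ Subgroup.center (G ⧸ L) := h1
      rw [Subgroup.mem_center_iff] at h2
      exact h2 g
    rw [commutator_def, Subgroup.commutator_le]
    intro g _ h _
    rw [← QuotientGroup.eq_one_iff, commutatorElement_def, QuotientGroup.mk_mul,
      QuotientGroup.mk_mul, QuotientGroup.mk_mul, QuotientGroup.mk_inv, QuotientGroup.mk_inv,
      hall g h, mul_inv_cancel_right, mul_inv_cancel]
  -- the change
  have h0 := hcomm (hA (hx j))
  obtain ⟨κ, hκ, c, hc, hkc⟩ := Subgroup.mem_sup_of_normal_left.1 h0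
  obtain ⟨d, ⟨a, ha, rfl⟩, b, hb, hdb⟩ := Subgroup.mem_sup_of_normal_right.1 (hAG hc)
  have hbK : b ∈ K x j := Subgroup.commutator_le_right A (K x j) hb
  have h3 : e j = x j * (κ * (((x j)⁻¹ * a * x j * a⁻¹) * b)) := by
    rw [hdb, hkc]
    group
  refine gm_of_mem (i := j) (g := a) (fun i hi => Function.update_of_ne hi _ _) ?_
  rw [Function.update_self, h3]
  have h4 : (a * x j * a⁻¹)⁻¹ * (x j * (κ * (((x j)⁻¹ * a * x j * a⁻¹) * b))) =
      ((a * (x j)⁻¹ * a⁻¹ * x j) * κ * (a * (x j)⁻¹ * a⁻¹ * x j)⁻¹) * b := by group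
  rw [h4]
  exact (K x j).mul_mem (hKn.conj_mem _ hκ _) hbK

/-- Sequential replacement of the first `t` entries of `x` by those of `e`. -/
theorem seq_upto {e : Fin n → G} {P : (Fin n → G) → Prop} {t : ℕ} (ht : t ≤ n)
    (hP : ∀ x, P x → ∀ j : Fin n, j.val < t →
      GMove x (Function.update x j (e j)) ∧ P (Function.update x j (e j)))
    {x : Fin n → G} (hx : P x) :
    Chain GMove t x (fun i => if i.val < t then e i else x i) := by
  have key : ∀ s : ℕ, s ≤ t → Chain GMove s x (fun i => if i.val < s then e i else x i) ∧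
      P (fun i => if i.val < s then e i else x i) := by
    intro s
    induction s with
    | zero =>
      intro _
      have h0 : (fun i : Fin n => if i.val < 0 then e i else x i) = x := by
        funext i
        rw [if_neg (Nat.not_lt_zero _)]
      rw [h0]
      exact ⟨rfl, hx⟩
    | succ s ih =>
      intro hs
      obtain ⟨h1, h2⟩ := ih (by omega)
      obtain ⟨h3, h4⟩ := hP _ h2 ⟨s, by omega⟩ (by simp only; omega)
      have h5 : Function.update (fun i : Fin n => if i.val < s then e i else x i) ⟨s, by omega⟩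
          (e ⟨s, by omega⟩) = fun i => if i.val < s + 1 then e i else x i := by
        funext i
        by_cases hi : i = ⟨s, by omega⟩
        · subst hi
          rw [Function.update_self, if_pos (Nat.lt_succ_self s)]
        · rw [Function.update_of_ne hi]
          have hne : i.val ≠ s := fun h => hi (Fin.ext h)
          by_cases hit : i.val < s
          · rw [if_pos hit, if_pos (by omega)]
          · rw [if_neg hit, if_neg (by omega)]
      rw [h5] at h3 h4
      exact ⟨h1.trans (Chain.one h3), h4⟩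
  exact (key t le_rfl).1

/-- Sequential replacement of the entries of `x` by those of `e`. -/
theorem seq_gm {e : Fin n → G} {P : (Fin n → G) → Prop}
    (hP : ∀ x, P x → ∀ j, GMove x (Function.update x j (e j)) ∧ P (Function.update x j (e j)))
    {x : Fin n → G} (hx : P x) : Chain GMove n x e := by
  have h := seq_upto le_rfl (fun x hx j _ => hP x hx j) hx
  have h0 : (fun i : Fin n => if i.val < n then e i else x i) = e := by
    funext i
    rw [if_pos i.2]
  rwa [h0] at h

theorem abelian_chain {e : Fin n → G} (he : Subgroup.closure (Set.range e) = ⊤)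
    {A : Subgroup G} [A.Normal] (hA : A ≤ commutator G) (hab : ∀ a ∈ A, ∀ b ∈ A, a * b = b * a)
    {x : Fin n → G} (hx : Cong A x e) : Chain GMove n x e := by
  refine seq_gm (P := fun x => Cong A x e) (fun x hx j => ⟨ab_gm he hA hab hx j, fun i => ?_⟩) hx
  by_cases hi : i = j
  · subst hi
    rw [Function.update_self, inv_mul_cancel]
    exact A.one_mem
  · rw [Function.update_of_ne hi]
    exact hx i

open scoped commutatorElement in
/-- One abelian layer `M / M'`, lifted. -/
theorem layer_chain {e : Fin n → G} (he : Subgroup.closure (Set.range e) = ⊤)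
    {M N : Subgroup G} [M.Normal] [hNn : N.Normal] (hM : M ≤ commutator G)
    (hMM : ⁅M, M⁆ ≤ N) {x : Fin n → G} (hx : Cong M x e) :
    ∃ y, Chain GMove n x y ∧ Cong N y e := by
  set π : G →* G ⧸ N := QuotientGroup.mk' N with hπ
  have hπs : Function.Surjective π := QuotientGroup.mk'_surjective N
  have hker : π.ker = N := QuotientGroup.ker_mk' N
  have he' : Subgroup.closure (Set.range (π ∘ e)) = ⊤ := by
    rw [Set.range_comp, ← MonoidHom.map_closure, he]
    exact Subgroup.map_top_of_surjective π hπs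
  have hn : (M.map π).Normal := (inferInstance : M.Normal).map π hπs
  have hle : M.map π ≤ commutator (G ⧸ N) := by
    refine (Subgroup.map_mono hM).trans ?_
    rw [commutator_def, commutator_def, Subgroup.map_commutator]
    exact Subgroup.commutator_mono le_top le_top
  have hab : ∀ a ∈ M.map π, ∀ b ∈ M.map π, a * b = b * a := by
    rintro _ ⟨a, ha, rfl⟩ _ ⟨b, hb, rfl⟩
    rw [← map_mul, ← map_mul, hπ]
    show ((a * b : G) : G ⧸ N) = ((b * a : G) : G ⧸ N)
    rw [QuotientGroup.eq]
    have h1 : (a * b)⁻¹ * (b * a) = ⁅b⁻¹, a⁻¹⁆ := by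
      rw [commutatorElement_def]
      group
    rw [h1]
    exact hMM (Subgroup.commutator_mem_commutator (M.inv_mem hb) (M.inv_mem ha))
  have hc : Cong (M.map π) (π ∘ x) (π ∘ e) := fun i => ⟨(x i)⁻¹ * e i, hx i, by
    rw [map_mul, map_inv]; rfl⟩
  obtain ⟨y, hy, hye⟩ := chain_lift π hπs (abelian_chain he' hle hab hc)
  exact ⟨y, hy, mn_cong_of_eq π hye hker.le⟩

theorem two_layers {e : Fin n → G} (he : Subgroup.closure (Set.range e) = ⊤)
    {x : Fin n → G} (hx : Cong (commutator G) x e) :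
    ∃ y, Chain GMove (n + n) x y ∧
      Cong ⁅⁅commutator G, (⊤ : Subgroup G)⁆, ⁅commutator G, (⊤ : Subgroup G)⁆⁆ y e := by
  have h1 : ⁅commutator G, (⊤ : Subgroup G)⁆ ≤ commutator G := Subgroup.commutator_le_left _ _
  obtain ⟨y, hy, hye⟩ := layer_chain he (M := commutator G)
    (N := ⁅commutator G, (⊤ : Subgroup G)⁆) le_rfl (Subgroup.commutator_mono le_rfl le_top) hx
  obtain ⟨z, hz, hze⟩ := layer_chain he (M := ⁅commutator G, (⊤ : Subgroup G)⁆)
    (N := ⁅⁅commutator G, (⊤ : Subgroup G)⁆, ⁅commutator G, (⊤ : Subgroup G)⁆⁆) h1 le_rfl hye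
  exact ⟨z, hy.trans hz, hze⟩

end Pool.Agent.PAC
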