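import Pool.Agent.Lib_helper21.PAC.Basic

/-!
# Unimodular matrices over `ℤ/m`: a bounded number of generalised row moves
-/

set_option autoImplicit false

namespace Pool.Agent.PAC

open Pool.Agent.ACB

section SR

variable {R : Type*} [CommRing R]

/-- stable range one -/
def SR1 (R : Type*) [CommRing R] : Prop := ∀ a b : R, IsCoprime a b → ∃ t : R, IsUnit (a + t * b)

theorem sr1_zmod (m : ℕ) (hm : 0 < m) : SR1 (ZMod m) := by
  have : NeZero m := ⟨hm.ne'⟩
  intro a b hab
  classical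
  set P : Finset ℕ := m.primeFactors.filter (fun p => ¬ p ∣ a.val) with hP
  refine ⟨((∏ p ∈ P, p : ℕ) : ZMod m), ?_⟩
  have ha : ((a.val : ℕ) : ZMod m) = a := ZMod.natCast_zmod_val a
  have hb : ((b.val : ℕ) : ZMod m) = b := ZMod.natCast_zmod_val b
  have h1 : a + ((∏ p ∈ P, p : ℕ) : ZMod m) * b = ((a.val + (∏ p ∈ P, p) * b.val : ℕ) : ZMod m) := by
    push_cast
    rw [ha, hb]
  rw [h1, ZMod.isUnit_iff_coprime]
  apply Nat.Coprime.symm
  rw [Nat.coprime_iff_gcd_eq_one]
  by_contra hne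
  obtain ⟨p, hp, hpd⟩ := Nat.exists_prime_and_dvd hne
  have hpm : p ∣ m := hpd.trans (Nat.gcd_dvd_left _ _)
  have hpx : p ∣ a.val + (∏ p ∈ P, p) * b.val := hpd.trans (Nat.gcd_dvd_right _ _)
  have hpmem : p ∈ m.primeFactors := Nat.mem_primeFactors.mpr ⟨hp, hpm, hm.ne'⟩
  by_cases hpa : p ∣ a.val
  · have h2 : p ∣ (∏ p ∈ P, p) * b.val := (Nat.dvd_add_right hpa).mp hpx
    rcases (Nat.Prime.dvd_mul hp).mp h2 with h3 | h3
    · obtain ⟨q, hq, hpq⟩ := (Prime.dvd_finsetProd_iff hp.prime _).mp h3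
      rw [hP, Finset.mem_filter] at hq
      have hqp : q.Prime := Nat.prime_of_mem_primeFactors hq.1
      have : p = q := (Nat.prime_dvd_prime_iff_eq hp hqp).mp hpq
      exact hq.2 (this ▸ hpa)
    · obtain ⟨u, v, huv⟩ := hab
      have h4 : ((u.val * a.val + v.val * b.val : ℕ) : ZMod m) = ((1 : ℕ) : ZMod m) := by
        push_cast
        rw [ha, hb, ZMod.natCast_zmod_val, ZMod.natCast_zmod_val]
        exact huv
      rw [ZMod.natCast_eq_natCast_iff] at h4
      have h5 : p ∣ u.val * a.val + v.val * b.val :=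
        dvd_add (Dvd.dvd.mul_left hpa _) (Dvd.dvd.mul_left h3 _)
      have h6 := (h4.of_dvd hpm)
      have h7 : p ∣ 1 := (Nat.ModEq.dvd_iff h6 (dvd_refl p)).mp h5
      exact hp.one_lt.ne' (Nat.dvd_one.mp h7)
  · have hpP : p ∈ P := by
      rw [hP, Finset.mem_filter]
      exact ⟨hpmem, hpa⟩
    have h2 : p ∣ (∏ p ∈ P, p) * b.val := Dvd.dvd.mul_right (Finset.dvd_prod_of_mem _ hpP) _
    exact hpa ((Nat.dvd_add_left h2).mp hpx)

end SR

section LM

variable {R P : Type*} [CommRing R] [AddCommGroup P] [Module R P] {n : ℕ}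

/-- generalised row move -/
def LMove (R : Type*) [CommRing R] {P : Type*} [AddCommGroup P] [Module R P] {n : ℕ}
    (x y : Fin n → P) : Prop :=
  ∃ i, (∀ j, j ≠ i → y j = x j) ∧ (y i - x i ∈ Submodule.span R {v | ∃ j, j ≠ i ∧ x j = v} ∨
    y i + x i ∈ Submodule.span R {v | ∃ j, j ≠ i ∧ x j = v})

theorem lm_map {Q : Type*} [AddCommGroup Q] [Module R Q] (f : P →ₗ[R] Q) {x y : Fin n → P}
    (h : LMove R x y) : LMove R (f ∘ x) (f ∘ y) := by
  obtain ⟨i, h1, h2⟩ := h
  have key : ∀ v ∈ Submodule.span R {v | ∃ j, j ≠ i ∧ x j = v},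
      f v ∈ Submodule.span R {v | ∃ j, j ≠ i ∧ (f ∘ x) j = v} := by
    intro v hv
    have h3 := Submodule.mem_map_of_mem (f := f) hv
    rw [Submodule.map_span] at h3
    refine Submodule.span_mono ?_ h3
    rintro _ ⟨_, ⟨j, hj, rfl⟩, rfl⟩
    exact ⟨j, hj, rfl⟩
  refine ⟨i, fun j hj => ?_, ?_⟩
  · show f (y j) = f (x j)
    rw [h1 j hj]
  · rcases h2 with h2 | h2
    · left
      have := key _ h2
      rwa [map_sub] at this
    · right
      have := key _ h2
      rwa [map_add] at this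

theorem lchain_map {Q : Type*} [AddCommGroup Q] [Module R Q] (f : P →ₗ[R] Q) {a : ℕ}
    {x y : Fin n → P} (h : Chain (LMove R) a x y) : Chain (LMove R) a (f ∘ x) (f ∘ y) := by
  induction a generalizing x with
  | zero => exact (show x = y from h) ▸ rfl
  | succ a ih =>
    obtain ⟨w, hw, hw'⟩ := h
    exact ⟨f ∘ w, lm_map f hw, ih hw'⟩

theorem lm_set {x : Fin n → P} {i : Fin n} {v : P}
    (h : v - x i ∈ Submodule.span R {v | ∃ j, j ≠ i ∧ x j = v}) :
    LMove R x (Function.update x i v) :=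
  ⟨i, fun j hj => Function.update_of_ne hj _ _, Or.inl (by rwa [Function.update_self])⟩

/-- lifting of a row move along a quotient by the first entry -/
theorem lm_lift {Q : Type*} [AddCommGroup Q] [Module R Q] (f : P →ₗ[R] Q)
    (hf : Function.Surjective f) {x : Fin (n + 1) → P}
    (hker : ∀ v, f v = 0 → v ∈ Submodule.span R {x 0}) {b : Fin n → Q}
    (h : LMove R (fun i => f (x i.succ)) b) :
    ∃ y : Fin (n + 1) → P, LMove R x y ∧ y 0 = x 0 ∧ (fun i => f (y i.succ)) = b := by
  obtain ⟨i, h1, h2⟩ := h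
  obtain ⟨w, hw⟩ := hf (b i)
  refine ⟨Function.update x i.succ w, ⟨i.succ, fun j hj => Function.update_of_ne hj _ _, ?_⟩,
    Function.update_of_ne (Fin.succ_ne_zero i).symm _ _, ?_⟩
  · have key : ∀ v : P, f v ∈ Submodule.span R {v | ∃ j, j ≠ i ∧ f (x j.succ) = v} →
        v ∈ Submodule.span R {v | ∃ j, j ≠ i.succ ∧ x j = v} := by
      intro v hv
      have h3 : Submodule.span R {v | ∃ j, j ≠ i ∧ f (x j.succ) = v} ≤
          (Submodule.span R {v | ∃ j, j ≠ i.succ ∧ x j = v}).map f := by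
        rw [Submodule.span_le]
        rintro _ ⟨j, hj, rfl⟩
        exact ⟨x j.succ, Submodule.subset_span ⟨j.succ, fun h => hj (Fin.succ_injective _ h), rfl⟩,
          rfl⟩
      obtain ⟨v', hv', hvv⟩ := h3 hv
      have h4 : v - v' ∈ Submodule.span R {x 0} := hker _ (by rw [map_sub, hvv, sub_self])
      have h5 : Submodule.span R {x 0} ≤ Submodule.span R {v | ∃ j, j ≠ i.succ ∧ x j = v} := by
        apply Submodule.span_mono
        rw [Set.singleton_subset_iff]
        exact ⟨0, (Fin.succ_ne_zero i).symm, rfl⟩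
      have h6 := Submodule.add_mem _ (h5 h4) hv'
      rwa [sub_add_cancel] at h6
    rw [Function.update_self]
    rcases h2 with h2 | h2
    · left
      apply key
      rw [map_sub, hw]
      exact h2
    · right
      apply key
      rw [map_add, hw]
      exact h2
  · funext j
    by_cases hj : j = i
    · subst hj
      show f (Function.update x j.succ w j.succ) = b j
      rw [Function.update_self, hw]
    · show f (Function.update x i.succ w j.succ) = b j
      rw [Function.update_of_ne (fun h => hj (Fin.succ_injective _ h))]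
      exact (h1 j hj).symm

theorem lchain_lift {Q : Type*} [AddCommGroup Q] [Module R Q] (f : P →ₗ[R] Q)
    (hf : Function.Surjective f) {a : ℕ} {x : Fin (n + 1) → P}
    (hker : ∀ v, f v = 0 → v ∈ Submodule.span R {x 0}) {b : Fin n → Q}
    (h : Chain (LMove R) a (fun i => f (x i.succ)) b) :
    ∃ y : Fin (n + 1) → P, Chain (LMove R) a x y ∧ y 0 = x 0 ∧ (fun i => f (y i.succ)) = b := by
  induction a generalizing x with
  | zero => exact ⟨x, rfl, rfl, h⟩
  | succ a ih =>
    obtain ⟨w, hw, hw'⟩ := h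
    obtain ⟨z, hz, hz0, rfl⟩ := lm_lift f hf hker hw
    obtain ⟨y, hy, hy0, hy'⟩ := ih (x := z) (by rw [hz0]; exact hker) hw'
    exact ⟨y, ⟨z, hz, hy⟩, hy0.trans hz0, hy'⟩

end LM

end Pool.Agent.PAC
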