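import Pool.Agent.Lib_helper21.PAC.Profinite

/-!
# The Andrews-Curtis conjecture in profinite groups, in boundedly many generalised moves
-/

set_option autoImplicit false

namespace Pool.Agent.PAC

open Pool.Agent.ACB

universe u

section Top

variable {G : Type u} [Group G] [TopologicalSpace G] [IsTopologicalGroup G] {n : ℕ}

/-! ### the easy direction -/

theorem tm_pr {x z : Fin n → G} (h : TMove x z) (U : OpenNormalSubgroup G) :
    GMove (pr U ∘ x) (pr U ∘ z) := by
  obtain ⟨i, g, k, hk, h⟩ := h
  have h1 : K x i ≤ (K (pr U ∘ x) i).comap (pr U) := fun k hk => K_map (pr U) x i hk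
  have h2 : IsOpen ((K (pr U ∘ x) i).comap (pr U) : Set G) := by
    apply Subgroup.isOpen_mono _ U.isOpen'
    intro g hg
    show pr U g ∈ K (pr U ∘ x) i
    have h1 : pr U g = 1 := (QuotientGroup.eq_one_iff g).mpr hg
    rw [h1]
    exact one_mem _
  have h3 : IsClosed ((K (pr U ∘ x) i).comap (pr U) : Set G) := Subgroup.isClosed_of_isOpen _ h2
  have h4 : closure (K x i : Set G) ⊆ ((K (pr U ∘ x) i).comap (pr U) : Set G) :=
    closure_minimal h1 h3
  refine ⟨i, pr U g, pr U k, h4 hk, ?_⟩
  rcases h with rfl | rfl
  · left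
    rw [Function.comp_update, map_mul, map_mul, map_mul, map_inv]
    rfl
  · right
    rw [Function.comp_update, map_mul, map_mul, map_mul, map_inv, map_inv]
    rfl

theorem tchain_pr {m : ℕ} {x y : Fin n → G} (h : Chain TMove m x y) (U : OpenNormalSubgroup G) :
    Chain GMove m (pr U ∘ x) (pr U ∘ y) := by
  induction m generalizing x with
  | zero => exact (show x = y from h) ▸ rfl
  | succ m ih =>
    obtain ⟨w, hw, hw'⟩ := h
    exact ⟨_, tm_pr hw U, ih hw'⟩

theorem tchain_ab {m : ℕ} {x y : Fin n → G} (h : Chain TMove m x y) (U : Subgroup G) [U.Normal]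
    (hU : IsOpen (U : Set G)) : AC (fun i => (x i : G ⧸ U)) (fun i => (y i : G ⧸ U)) :=
  chain_ac (tchain_pr h { toSubgroup := U, isOpen' := hU, isNormal' := inferInstance })

variable [CompactSpace G] [TotallyDisconnectedSpace G]

theorem profinite_main {e x : Fin n → G} (he : Dense (Subgroup.closure (Set.range e) : Set G))
    (hx : Dense (Subgroup.normalClosure (Set.range x) : Set G))
    (hab : ∀ (U : Subgroup G) [U.Normal], IsOpen (U : Set G) → commutator G ≤ U →
      AC (fun i => (x i : G ⧸ U)) (fun i => (e i : G ⧸ U))) : Chain TMove (8 * n) x e := by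
  apply chain_compact
  intro U
  have hfin : Finite (G ⧸ U.toSubgroup) := Subgroup.quotient_finite_of_isOpen _ U.isOpen'
  exact finite_main (closure_dense he U) (normalClosure_dense hx U) (ab_dense hab U)

theorem profinite_two {e x y : Fin n → G} (he : Dense (Subgroup.closure (Set.range e) : Set G))
    (hx : Dense (Subgroup.normalClosure (Set.range x) : Set G))
    (hy : Dense (Subgroup.normalClosure (Set.range y) : Set G))
    (hab : ∀ (U : Subgroup G) [U.Normal], IsOpen (U : Set G) → commutator G ≤ U →
      AC (fun i => (x i : G ⧸ U)) (fun i => (y i : G ⧸ U))) :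
    ∃ m ≤ 12 * n + 2, Chain TMove m x y := by
  rcases Nat.eq_zero_or_pos n with hn | hn
  · subst hn
    exact ⟨0, by omega, Subsingleton.elim x y⟩
  · refine ⟨12 * n + 2, le_rfl, ?_⟩
    apply chain_compact
    intro U
    have hfin : Finite (G ⧸ U.toSubgroup) := Subgroup.quotient_finite_of_isOpen _ U.isOpen'
    exact finite_two (closure_dense he U) (normalClosure_dense hx U) (normalClosure_dense hy U)
      (ab_dense hab U) hn

end Top

/-! ### images of normally generating tuples of the free group -/

theorem free_image {G : Type u} [Group G] {n : ℕ} (e : Fin n → G) (r : Fin n → FreeGroup (Fin n))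
    (hr : Subgroup.normalClosure (Set.range r) = ⊤) :
    AC (fun i => Abelianization.of (FreeGroup.lift e (r i)))
      (fun i => Abelianization.of (e i)) := by
  have h1 := (free_abelian r hr).map (Abelianization.map (FreeGroup.lift e))
  have h2 : (Abelianization.map (FreeGroup.lift e)) ∘ (fun i => Abelianization.of (r i)) =
      fun i => Abelianization.of (FreeGroup.lift e (r i)) := by
    funext i
    exact Abelianization.map_of _ _
  have h3 : (Abelianization.map (FreeGroup.lift e)) ∘
      (fun i => Abelianization.of (FreeGroup.of i)) = fun i => Abelianization.of (e i) := by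
    funext i
    show Abelianization.map (FreeGroup.lift e) (Abelianization.of (FreeGroup.of i)) = _
    rw [Abelianization.map_of, FreeGroup.lift_apply_of]
  rw [h2, h3] at h1
  exact h1

theorem free_image_ab {G : Type u} [Group G] {n : ℕ} (e : Fin n → G)
    (r : Fin n → FreeGroup (Fin n)) (hr : Subgroup.normalClosure (Set.range r) = ⊤)
    (U : Subgroup G) [U.Normal] (hU : commutator G ≤ U) :
    AC (fun i => ((FreeGroup.lift e (r i) : G) : G ⧸ U)) (fun i => (e i : G ⧸ U)) := by
  have h1 : ∀ v ∈ commutator G, (QuotientGroup.mk' U) v = 1 := fun v hv =>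
    (QuotientGroup.eq_one_iff v).mpr (hU hv)
  exact (free_image e r hr).map (QuotientGroup.lift (commutator G) (QuotientGroup.mk' U) h1)

theorem free_image_normal {G : Type u} [Group G] {n : ℕ} (e : Fin n → G)
    (r : Fin n → FreeGroup (Fin n)) (hr : Subgroup.normalClosure (Set.range r) = ⊤) :
    Subgroup.closure (Set.range e) ≤
      Subgroup.normalClosure (Set.range fun i => FreeGroup.lift e (r i)) := by
  have h1 : (⊤ : Subgroup (FreeGroup (Fin n))) ≤
      (Subgroup.normalClosure (Set.range fun i => FreeGroup.lift e (r i))).comap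
        (FreeGroup.lift e) := by
    rw [← hr]
    apply Subgroup.normalClosure_le_normal
    rintro _ ⟨i, rfl⟩
    exact Subgroup.subset_normalClosure ⟨i, rfl⟩
  rw [Subgroup.closure_le]
  rintro _ ⟨i, rfl⟩
  have h2 := h1 (Subgroup.mem_top (FreeGroup.of i))
  rw [Subgroup.mem_comap, FreeGroup.lift_apply_of] at h2
  exact h2

theorem profinite_free {G : Type u} [Group G] [TopologicalSpace G] [IsTopologicalGroup G]
    [CompactSpace G] [TotallyDisconnectedSpace G] {n : ℕ} {e : Fin n → G}
    (he : Dense (Subgroup.closure (Set.range e) : Set G)) (r : Fin n → FreeGroup (Fin n))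
    (hr : Subgroup.normalClosure (Set.range r) = ⊤) :
    Chain TMove (8 * n) (fun i => FreeGroup.lift e (r i)) e :=
  profinite_main he (he.mono (free_image_normal e r hr)) fun U _ _ hU => free_image_ab e r hr U hU

theorem finite_free {n : ℕ} (r : Fin n → FreeGroup (Fin n))
    (hr : Subgroup.normalClosure (Set.range r) = ⊤) (R : Subgroup (FreeGroup (Fin n))) [R.Normal]
    [R.FiniteIndex] : ∃ s : Fin n → FreeGroup (Fin n), Chain GMove (8 * n) r s ∧
      ∀ i, (s i)⁻¹ * FreeGroup.of i ∈ R := by
  let π : FreeGroup (Fin n) →* FreeGroup (Fin n) ⧸ R := QuotientGroup.mk' R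
  have hπ : Function.Surjective π := QuotientGroup.mk'_surjective _
  let e : Fin n → FreeGroup (Fin n) ⧸ R := fun i => π (FreeGroup.of i)
  have h1 : FreeGroup.lift e = π := by
    apply FreeGroup.ext_hom
    intro i
    rw [FreeGroup.lift_apply_of]
  have he : Subgroup.closure (Set.range e) = ⊤ := by
    have h2 : Set.range e = π '' Set.range FreeGroup.of := (Set.range_comp π FreeGroup.of)
    rw [h2, ← MonoidHom.map_closure, FreeGroup.closure_range_of, Subgroup.map_top_of_surjective _ hπ]
  have h3 : Subgroup.normalClosure (Set.range fun i => FreeGroup.lift e (r i)) = ⊤ := by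
    rw [eq_top_iff, ← he]
    exact free_image_normal e r hr
  have hfin : Finite (FreeGroup (Fin n) ⧸ R) := inferInstance
  have h4 := finite_main he h3 (free_image e r hr)
  rw [h1] at h4
  obtain ⟨s, hs, hs'⟩ := chain_lift π hπ (x := r) h4
  refine ⟨s, hs, fun i => ?_⟩
  have h5 : π (s i) = π (FreeGroup.of i) := congrFun hs' i
  exact QuotientGroup.eq.mp h5

end Pool.Agent.PAC
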