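import Pool.Agent.Lib_helper21.PAC.Lin

/-!
# Reduction of matrices of determinant one by `4 n - 3` generalised row moves
-/

set_option autoImplicit false

namespace Pool.Agent.PAC

open Pool.Agent.ACB

variable {R : Type*} [CommRing R]

/-- the entries can be replaced by the unit vectors in descending order -/
def Clean {n : ℕ} (y : Fin n → Fin n → R) : Prop :=
  ∀ i, (Pi.single i 1 : Fin n → R) - y i ∈
    Submodule.span R {v | ∃ j, j ≠ i ∧ (if i < j then (Pi.single j 1 : Fin n → R) else y j) = v}

theorem det_schur {n : ℕ} (M : Matrix (Fin (n + 1)) (Fin (n + 1)) R) (h0 : M 0 0 = 1) :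
    Matrix.det (fun (i j : Fin n) => M i.succ j.succ - M i.succ 0 * M 0 j.succ) = M.det := by
  set B : Matrix (Fin (n + 1)) (Fin (n + 1)) R :=
    fun i j => M i j - (Fin.cons 0 (fun i : Fin n => M i.succ 0) : Fin (n + 1) → R) i * M 0 j with hB
  have h1 : M.det = B.det := by
    refine Matrix.det_eq_of_forall_row_eq_smul_add_const
      (Fin.cons 0 (fun i : Fin n => M i.succ 0) : Fin (n + 1) → R) 0 rfl ?_
    intro i j
    simp only [hB, Fin.cons_zero]
    ring
  rw [h1, Matrix.det_succ_column_zero, Fin.sum_univ_succ]
  have h2 : ∀ i : Fin n, B i.succ 0 = 0 := by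
    intro i
    simp only [hB, Fin.cons_succ, h0]
    ring
  have h3 : ∑ i : Fin n, (-1) ^ ((i.succ : Fin (n + 1)) : ℕ) * B i.succ 0 *
      (B.submatrix i.succ.succAbove Fin.succ).det = 0 := by
    apply Finset.sum_eq_zero
    intro i _
    rw [h2, mul_zero, zero_mul]
  rw [h3, add_zero]
  have h4 : B 0 0 = 1 := by
    simp only [hB, Fin.cons_zero, h0]
    ring
  rw [h4, Fin.val_zero, pow_zero, one_mul, one_mul]
  congr 1

theorem mat_main (hR : SR1 R) : ∀ (n : ℕ) (M : Matrix (Fin (n + 1)) (Fin (n + 1)) R), M.det = 1 →
    ∃ y : Fin (n + 1) → Fin (n + 1) → R, Chain (LMove R) (3 * n) (fun i => M i) y ∧ Clean y := by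
  intro n
  induction n with
  | zero =>
    intro M hM
    refine ⟨fun i => M i, rfl, ?_⟩
    intro i
    have hall : ∀ i : Fin (0 + 1), i = 0 := fun i => Fin.ext (by have := i.2; simp only [Fin.val_zero]; omega)
    have hi : i = 0 := hall i
    subst hi
    have h1 : M 0 0 = 1 := by
      rw [← hM]
      exact (Matrix.det_fin_one M).symm
    have h2 : (Pi.single 0 1 : Fin (0 + 1) → R) - M 0 = 0 := by
      funext j
      have hj : j = 0 := hall j
      subst hj
      rw [Pi.sub_apply, Pi.single_eq_same, h1, sub_self]
      rfl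
    rw [h2]
    exact Submodule.zero_mem _
  | succ n ih =>
    intro M hM
    -- the first column is unimodular
    set c : Fin (n + 2) → R := fun j => M.adjugate 0 j with hc
    have hc1 : c 0 * M 0 0 + ∑ j : Fin (n + 1), c j.succ * M j.succ 0 = 1 := by
      have h1 := congrFun (congrFun (Matrix.adjugate_mul M) 0) 0
      rw [hM, one_smul, Matrix.one_apply_eq, Matrix.mul_apply, Fin.sum_univ_succ] at h1
      exact h1
    obtain ⟨t, ht⟩ := hR (M 0 0) (∑ j : Fin (n + 1), c j.succ * M j.succ 0)
      ⟨c 0, 1, by rw [one_mul]; exact hc1⟩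
    -- first move
    set d : Fin (n + 2) → R := Fin.cons 1 (fun j => t * c j.succ) with hd
    set M1 : Matrix (Fin (n + 2)) (Fin (n + 2)) R := M.updateRow 0 (∑ k, d k • M k) with hM1
    have hdM1 : M1.det = 1 := by
      rw [hM1, Matrix.det_updateRow_sum, hM]
      show d 0 • (1 : R) = 1
      rw [hd, Fin.cons_zero, one_smul]
    have hM1s : ∀ j, j ≠ 0 → M1 j = M j := fun j hj => Matrix.updateRow_ne hj
    have hM10 : M1 0 = ∑ k, d k • M k := Matrix.updateRow_self
    have hM100 : M1 0 0 = M 0 0 + t * ∑ j : Fin (n + 1), c j.succ * M j.succ 0 := by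
      rw [hM10, Finset.sum_apply, Fin.sum_univ_succ, hd, Finset.mul_sum]
      simp only [Fin.cons_zero, Fin.cons_succ, Pi.smul_apply, smul_eq_mul, one_mul]
      congr 1
      exact Finset.sum_congr rfl fun j _ => by ring
    have hu : IsUnit (M1 0 0) := by rw [hM100]; exact ht
    have m1 : LMove R (fun i => M i) (fun i => M1 i) := by
      refine ⟨0, fun j hj => hM1s j hj, Or.inl ?_⟩
      show M1 0 - M 0 ∈ _
      rw [hM10, Fin.sum_univ_succ, hd]
      simp only [Fin.cons_zero, Fin.cons_succ, one_smul, add_sub_cancel_left]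
      refine Submodule.sum_mem _ fun j _ => Submodule.smul_mem _ _ (Submodule.subset_span ?_)
      exact ⟨j.succ, Fin.succ_ne_zero j, rfl⟩
    -- second move
    obtain ⟨u, hu⟩ := hu
    set s : R := ↑u⁻¹ * (1 - M1 1 0) with hs
    have h10 : (1 : Fin (n + 2)) ≠ 0 := by
      intro h
      have := congrArg Fin.val h
      simp at this
    set M2 : Matrix (Fin (n + 2)) (Fin (n + 2)) R := M1.updateRow 1 (M1 1 + s • M1 0) with hM2
    have hdM2 : M2.det = 1 := by
      rw [hM2, Matrix.det_updateRow_add_smul_self _ h10, hdM1]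
    have hM2s : ∀ j, j ≠ 1 → M2 j = M1 j := fun j hj => Matrix.updateRow_ne hj
    have hM21 : M2 1 = M1 1 + s • M1 0 := Matrix.updateRow_self
    have hM210 : M2 1 0 = 1 := by
      rw [hM21, Pi.add_apply, Pi.smul_apply, smul_eq_mul, hs, ← hu]
      have h1 : (↑u⁻¹ : R) * ↑u = 1 := Units.inv_mul u
      calc M1 1 0 + ↑u⁻¹ * (1 - M1 1 0) * ↑u = M1 1 0 + (↑u⁻¹ * ↑u) * (1 - M1 1 0) := by ring
        _ = 1 := by rw [h1]; ring
    have m2 : LMove R (fun i => M1 i) (fun i => M2 i) := by
      refine ⟨1, fun j hj => hM2s j hj, Or.inl ?_⟩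
      show M2 1 - M1 1 ∈ _
      rw [hM21, add_sub_cancel_left]
      exact Submodule.smul_mem _ _ (Submodule.subset_span ⟨0, h10.symm, rfl⟩)
    -- third move
    set M3 : Matrix (Fin (n + 2)) (Fin (n + 2)) R :=
      M2.updateRow 0 (M2 0 + (1 - (u : R)) • M2 1) with hM3
    have hdM3 : M3.det = 1 := by
      rw [hM3, Matrix.det_updateRow_add_smul_self _ h10.symm, hdM2]
    have hM3s : ∀ j, j ≠ 0 → M3 j = M2 j := fun j hj => Matrix.updateRow_ne hj
    have hM30 : M3 0 = M2 0 + (1 - (u : R)) • M2 1 := Matrix.updateRow_self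
    have hM300 : M3 0 0 = 1 := by
      rw [hM30, Pi.add_apply, Pi.smul_apply, smul_eq_mul, hM210, hM2s 0 h10.symm, ← hu]
      ring
    have m3 : LMove R (fun i => M2 i) (fun i => M3 i) := by
      refine ⟨0, fun j hj => hM3s j hj, Or.inl ?_⟩
      show M3 0 - M2 0 ∈ _
      rw [hM30, add_sub_cancel_left]
      exact Submodule.smul_mem _ _ (Submodule.subset_span ⟨1, h10, rfl⟩)
    -- the quotient
    let π : (Fin (n + 2) → R) →ₗ[R] (Fin (n + 1) → R) :=
      { toFun := fun v j => v j.succ - v 0 * M3 0 j.succ
        map_add' := by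
          intro v w
          funext j
          simp only [Pi.add_apply]
          ring
        map_smul' := by
          intro a v
          funext j
          simp only [Pi.smul_apply, smul_eq_mul, RingHom.id_apply]
          ring }
    have hπ : ∀ (v : Fin (n + 2) → R) (j : Fin (n + 1)), π v j = v j.succ - v 0 * M3 0 j.succ :=
      fun v j => rfl
    have hπs : Function.Surjective π := by
      intro w
      refine ⟨Fin.cons 0 w, ?_⟩
      funext j
      rw [hπ, Fin.cons_succ, Fin.cons_zero, zero_mul, sub_zero]
    have hker : ∀ v, π v = 0 → v ∈ Submodule.span R {M3 0} := by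
      intro v hv
      rw [Submodule.mem_span_singleton]
      refine ⟨v 0, ?_⟩
      funext j
      rw [Pi.smul_apply, smul_eq_mul]
      refine Fin.cases ?_ (fun j => ?_) j
      · rw [hM300, mul_one]
      · have h1 := congrFun hv j
        rw [hπ, Pi.zero_apply, sub_eq_zero] at h1
        exact h1.symm
    have hdet : Matrix.det (fun (i j : Fin (n + 1)) => M3 i.succ j.succ - M3 i.succ 0 * M3 0 j.succ)
        = 1 := by
      rw [det_schur M3 hM300, hdM3]
    obtain ⟨y', hy', hcl⟩ := ih _ hdet
    have hy'' : Chain (LMove R) (3 * n) (fun i => π (M3 i.succ)) y' := hy'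
    obtain ⟨y, hy, hy0, hyy⟩ := lchain_lift π hπs (x := fun i => M3 i) hker hy''
    refine ⟨y, ?_, ?_⟩
    · have h1 := (Chain.one m1).trans ((Chain.one m2).trans ((Chain.one m3).trans hy))
      have h2 : 1 + (1 + (1 + 3 * n)) = 3 * (n + 1) := by ring
      rwa [h2] at h1
    · have hy0' : y 0 = M3 0 := hy0
      intro i
      refine Fin.cases ?_ (fun i => ?_) i
      · -- the first entry
        have h1 : (Pi.single 0 1 : Fin (n + 2) → R) - y 0 =
            ∑ j : Fin (n + 1), (- M3 0 j.succ) • (Pi.single j.succ 1 : Fin (n + 2) → R) := by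
          funext k
          rw [hy0', Pi.sub_apply, Finset.sum_apply]
          refine Fin.cases ?_ (fun k => ?_) k
          · rw [Pi.single_eq_same, hM300, sub_self, Finset.sum_eq_zero]
            intro j _
            rw [Pi.smul_apply, Pi.single_eq_of_ne (Fin.succ_ne_zero j).symm, smul_zero]
          · rw [Pi.single_eq_of_ne (Fin.succ_ne_zero k), zero_sub, Finset.sum_eq_single k]
            · rw [Pi.smul_apply, Pi.single_eq_same, smul_eq_mul, mul_one]
            · intro j _ hj
              rw [Pi.smul_apply, Pi.single_eq_of_ne (fun h => hj (Fin.succ_injective _ h).symm),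
                smul_zero]
            · intro h
              exact absurd (Finset.mem_univ k) h
        rw [h1]
        refine Submodule.sum_mem _ fun j _ => Submodule.smul_mem _ _ (Submodule.subset_span ?_)
        exact ⟨j.succ, Fin.succ_ne_zero j, if_pos (Fin.succ_pos j)⟩
      · -- the other entries
        set S : Submodule R (Fin (n + 2) → R) := Submodule.span R {v | ∃ j, j ≠ i.succ ∧
          (if i.succ < j then (Pi.single j 1 : Fin (n + 2) → R) else y j) = v} with hS
        have hπe : ∀ j : Fin (n + 1), π (Pi.single j.succ 1) = Pi.single j 1 := by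
          intro j
          funext k
          rw [hπ, Pi.single_eq_of_ne (Fin.succ_ne_zero j).symm, zero_mul, sub_zero]
          by_cases hk : k = j
          · subst hk
            rw [Pi.single_eq_same, Pi.single_eq_same]
          · rw [Pi.single_eq_of_ne hk, Pi.single_eq_of_ne (fun h => hk (Fin.succ_injective _ h))]
        have hπy : ∀ j : Fin (n + 1), π (y j.succ) = y' j := fun j => congrFun hyy j
        have h1 : Submodule.span R {v | ∃ j, j ≠ i ∧
            (if i < j then (Pi.single j 1 : Fin (n + 1) → R) else y' j) = v} ≤ S.map π := by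
          rw [Submodule.span_le]
          rintro _ ⟨j, hj, rfl⟩
          refine ⟨if i.succ < j.succ then (Pi.single j.succ 1 : Fin (n + 2) → R) else y j.succ,
            Submodule.subset_span ⟨j.succ, fun h => hj (Fin.succ_injective _ h), rfl⟩, ?_⟩
          by_cases hij : i < j
          · rw [if_pos hij, if_pos (Fin.succ_lt_succ_iff.mpr hij), hπe]
          · rw [if_neg hij, if_neg (fun h => hij (Fin.succ_lt_succ_iff.mp h)), hπy]
        have h2 := hcl i
        obtain ⟨v, hv, hvv⟩ := h1 h2
        have h3 : (Pi.single i.succ 1 - y i.succ) - v ∈ Submodule.span R {M3 0} := by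
          apply hker
          rw [map_sub, map_sub, hπe, hπy, hvv, sub_self]
        have h4 : Submodule.span R {M3 0} ≤ S := by
          rw [Submodule.span_singleton_le_iff_mem, ← hy0']
          refine Submodule.subset_span ⟨0, (Fin.succ_ne_zero i).symm, if_neg ?_⟩
          exact fun h => absurd h (Nat.not_lt_zero _)
        have h5 := S.add_mem (h4 h3) hv
        rwa [sub_add_cancel] at h5

/-- the final sweep -/
theorem clean_chain {n : ℕ} {y : Fin n → Fin n → R} (hy : Clean y) :
    Chain (LMove R) n y (fun j => Pi.single j 1) := by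
  have key : ∀ t : ℕ, t ≤ n → Chain (LMove R) t y
      (fun j => if n - t ≤ j.val then (Pi.single j 1 : Fin n → R) else y j) := by
    intro t
    induction t with
    | zero =>
      intro _
      have h0 : (fun j : Fin n => if n - 0 ≤ j.val then (Pi.single j 1 : Fin n → R) else y j) =
          y := by
        funext j
        rw [if_neg (by have := j.2; omega)]
      rw [h0]
      rfl
    | succ t ih =>
      intro ht
      have h1 := ih (by omega)
      set x : Fin n → Fin n → R :=
        fun j : Fin n => if n - t ≤ j.val then (Pi.single j 1 : Fin n → R) else y j with hx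
      set i : Fin n := ⟨n - (t + 1), by omega⟩ with hi
      have hxi : x i = y i := by
        rw [hx]
        simp only [hi]
        rw [if_neg (by omega)]
      have h2 : LMove R x (Function.update x i (Pi.single i 1)) := by
        apply lm_set
        rw [hxi]
        refine Submodule.span_mono ?_ (hy i)
        rintro _ ⟨j, hj, rfl⟩
        refine ⟨j, hj, ?_⟩
        rw [hx]
        have hne : j.val ≠ n - (t + 1) := fun h => hj (Fin.ext h)
        by_cases hij : i < j
        · have : n - (t + 1) < j.val := hij
          simp only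
          rw [if_pos hij, if_pos (by omega)]
        · have : ¬ n - (t + 1) < j.val := hij
          simp only
          rw [if_neg hij, if_neg (by omega)]
      have h3 : Function.update x i (Pi.single i 1) =
          fun j : Fin n => if n - (t + 1) ≤ j.val then (Pi.single j 1 : Fin n → R) else y j := by
        funext j
        by_cases hj : j = i
        · subst hj
          rw [Function.update_self, if_pos (by simp only [hi]; omega)]
        · rw [Function.update_of_ne hj, hx]
          have hne : j.val ≠ n - (t + 1) := fun h => hj (Fin.ext h)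
          simp only
          by_cases hjt : n - t ≤ j.val
          · rw [if_pos hjt, if_pos (by omega)]
          · rw [if_neg hjt, if_neg (by omega)]
      rw [h3] at h2
      exact h1.trans (Chain.one h2)
  have h := key n le_rfl
  have h0 : (fun j : Fin n => if n - n ≤ j.val then (Pi.single j 1 : Fin n → R) else y j) =
      fun j => Pi.single j 1 := by
    funext j
    rw [if_pos (by omega)]
  rwa [h0] at h

/-- A matrix of determinant `±1` over a ring of stable range one is reduced to the identity by
`4 n - 2` generalised row moves. -/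
theorem mat_chain (hR : SR1 R) {n : ℕ} (hn : 1 ≤ n) (M : Matrix (Fin n) (Fin n) R)
    (hM : M.det = 1 ∨ M.det = -1) :
    Chain (LMove R) (4 * n - 2) (fun i => M i) (fun j => Pi.single j 1) := by
  obtain ⟨n, rfl⟩ : ∃ k, n = k + 1 := ⟨n - 1, by omega⟩
  -- make the determinant one
  obtain ⟨M', hM', hd⟩ : ∃ M' : Matrix (Fin (n + 1)) (Fin (n + 1)) R,
      LMove R (fun i => M i) (fun i => M' i) ∧ M'.det = 1 := by
    rcases hM with hM | hM
    · refine ⟨M, ⟨0, fun j _ => rfl, Or.inl ?_⟩, hM⟩
      rw [sub_self]
      exact Submodule.zero_mem _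
    · refine ⟨M.updateRow 0 ((-1 : R) • M 0), ⟨0, fun j hj => Matrix.updateRow_ne hj, Or.inr ?_⟩,
        ?_⟩
      · show M.updateRow 0 ((-1 : R) • M 0) 0 + M 0 ∈ _
        rw [Matrix.updateRow_self, neg_smul, one_smul, neg_add_cancel]
        exact Submodule.zero_mem _
      · rw [Matrix.det_updateRow_smul, Matrix.updateRow_eq_self, hM]
        ring
  obtain ⟨y, hy, hcl⟩ := mat_main hR n M' hd
  have h1 := (Chain.one hM').trans (hy.trans (clean_chain hcl))
  have h2 : 1 + (3 * n + (n + 1)) = 4 * (n + 1) - 2 := by omega
  rwa [h2] at h1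

end Pool.Agent.PAC
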