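import Pool.Agent.Lib_helper21.PAC.Finite
import Mathlib.Topology.Algebra.ClopenNhdofOne

/-!
# Profinite groups
-/

set_option autoImplicit false

namespace Pool.Agent.PAC

open Pool.Agent.ACB

universe u

variable {G : Type u} [Group G] [TopologicalSpace G] {n : ℕ}

/-- the projection to the quotient by an open normal subgroup -/
abbrev pr (U : OpenNormalSubgroup G) : G →* G ⧸ U.toSubgroup := QuotientGroup.mk' U.toSubgroup

theorem pr_surj (U : OpenNormalSubgroup G) : Function.Surjective (pr U) :=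
  QuotientGroup.mk'_surjective _

theorem pr_eq (U : OpenNormalSubgroup G) {a b : G} : pr U a = pr U b ↔ a⁻¹ * b ∈ U.toSubgroup :=
  QuotientGroup.eq

/-- the projection between two quotients -/
def pr2 {U V : OpenNormalSubgroup G} (h : U ≤ V) : G ⧸ U.toSubgroup →* G ⧸ V.toSubgroup :=
  QuotientGroup.map U.toSubgroup V.toSubgroup (MonoidHom.id G) (fun _ hg => h hg)

theorem pr2_comp {U V : OpenNormalSubgroup G} (h : U ≤ V) (x : Fin n → G) :
    pr2 h ∘ (pr U ∘ x) = pr V ∘ x := rfl

theorem pr_cont (U : OpenNormalSubgroup G) : Continuous (pr U) := continuous_quotient_mk'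

theorem comp_closed [IsTopologicalGroup G] (U : OpenNormalSubgroup G)
    (Q : (Fin n → G ⧸ U.toSubgroup) → Prop) : IsClosed {z : Fin n → G | Q (pr U ∘ z)} := by
  have : DiscreteTopology (G ⧸ U.toSubgroup) := QuotientGroup.discreteTopology U.isOpen'
  have h1 : Continuous fun z : Fin n → G => pr U ∘ z :=
    continuous_pi fun i => (pr_cont U).comp (continuous_apply i)
  exact (isClosed_discrete {w : Fin n → G ⧸ U.toSubgroup | Q w}).preimage h1

theorem compact_choice {Y : Type*} [TopologicalSpace Y] [CompactSpace Y]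
    {P : OpenNormalSubgroup G → Set Y} (hne : ∀ U, (P U).Nonempty) (hcl : ∀ U, IsClosed (P U))
    (hmono : ∀ U V, U ≤ V → P U ⊆ P V) : ∃ y, ∀ U, y ∈ P U := by
  have h0 : Nonempty (OpenNormalSubgroup G) :=
    ⟨{ toSubgroup := ⊤, isOpen' := isOpen_univ, isNormal' := inferInstance }⟩
  have h1 : (⋂ U, P U).Nonempty :=
    IsCompact.nonempty_iInter_of_directed_nonempty_isCompact_isClosed P
      (fun U V => ⟨U ⊓ V, hmono _ _ inf_le_left, hmono _ _ inf_le_right⟩) hne
      (fun U => (hcl U).isCompact) hcl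
  obtain ⟨y, hy⟩ := h1
  exact ⟨y, Set.mem_iInter.mp hy⟩

variable [IsTopologicalGroup G] [CompactSpace G] [TotallyDisconnectedSpace G]

theorem pr_sep {a b : G} (h : ∀ U : OpenNormalSubgroup G, pr U a = pr U b) : a = b := by
  by_contra hab
  have h1 : a⁻¹ * b ≠ 1 := fun h2 => hab (inv_mul_eq_one.mp h2)
  have hT : T1Space G := inferInstance
  obtain ⟨U, hU⟩ := ProfiniteGrp.exist_openNormalSubgroup_sub_open_nhds_of_one
    (isOpen_compl_singleton (x := a⁻¹ * b)) (show (1 : G) ∈ ({a⁻¹ * b}ᶜ : Set G) from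
      fun h2 => h1 (Set.mem_singleton_iff.mp h2).symm)
  exact hU ((pr_eq U).mp (h U)) rfl

theorem pr_sep_fun {x y : Fin n → G} (h : ∀ U : OpenNormalSubgroup G, pr U ∘ x = pr U ∘ y) :
    x = y := by
  funext i
  exact pr_sep fun U => congrFun (h U) i

theorem pr_closure {H : Subgroup G} {k : G}
    (h : ∀ U : OpenNormalSubgroup G, ∃ k' ∈ H, pr U k' = pr U k) : k ∈ closure (H : Set G) := by
  rw [mem_closure_iff]
  intro O hO hkO
  have h1 : IsOpen ((fun g => k * g) ⁻¹' O) := hO.preimage (continuous_const.mul continuous_id)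
  obtain ⟨U, hU⟩ := ProfiniteGrp.exist_openNormalSubgroup_sub_open_nhds_of_one h1
    (show (1 : G) ∈ (fun g => k * g) ⁻¹' O by
      rw [Set.mem_preimage, mul_one]
      exact hkO)
  obtain ⟨k', hk', h2⟩ := h U
  have h3 : k⁻¹ * k' ∈ U.toSubgroup := (pr_eq U).mp h2.symm
  have h4 := hU h3
  rw [Set.mem_preimage, mul_inv_cancel_left] at h4
  exact ⟨k', h4, hk'⟩

theorem gm_compact {x z : Fin n → G}
    (h : ∀ U : OpenNormalSubgroup G, GMove (pr U ∘ x) (pr U ∘ z)) : TMove x z := by
  classical
  let Q : (U : OpenNormalSubgroup G) → Set (Fin n × Bool × (G ⧸ U.toSubgroup) ×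
      (G ⧸ U.toSubgroup)) := fun U => {p | p.2.2.2 ∈ K (pr U ∘ x) p.1 ∧
    pr U ∘ z = Function.update (pr U ∘ x) p.1 (p.2.2.1 *
      (bif p.2.1 then pr U (x p.1) else (pr U (x p.1))⁻¹) * (p.2.2.1)⁻¹ * p.2.2.2)}
  let f : (U : OpenNormalSubgroup G) → Fin n × Bool × G × G →
      (Fin n × Bool × (G ⧸ U.toSubgroup) × (G ⧸ U.toSubgroup)) := fun U p =>
    (p.1, p.2.1, pr U p.2.2.1, pr U p.2.2.2)
  have hf : ∀ U, Continuous (f U) := fun U =>
    continuous_fst.prodMk ((continuous_fst.comp continuous_snd).prodMk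
      (((pr_cont U).comp (continuous_fst.comp (continuous_snd.comp continuous_snd))).prodMk
        ((pr_cont U).comp (continuous_snd.comp (continuous_snd.comp continuous_snd)))))
  have h1 := compact_choice (P := fun U => f U ⁻¹' Q U) (fun U => by
    obtain ⟨i, g, k, hk, h⟩ := h U
    obtain ⟨g, rfl⟩ := pr_surj U g
    obtain ⟨k, rfl⟩ := pr_surj U k
    rcases h with h | h
    · exact ⟨(i, true, g, k), hk, h⟩
    · exact ⟨(i, false, g, k), hk, h⟩) (fun U => by
    have : DiscreteTopology (G ⧸ U.toSubgroup) := QuotientGroup.discreteTopology U.isOpen'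
    exact (isClosed_discrete (Q U)).preimage (hf U)) (fun U V hUV => by
    rintro ⟨i, s, g, k⟩ ⟨hk, h⟩
    refine ⟨?_, ?_⟩
    · have := K_map (pr2 hUV) (pr U ∘ x) i hk
      exact this
    · have h2 := congrArg (fun w => pr2 hUV ∘ w) h
      rw [Function.comp_update, pr2_comp, pr2_comp] at h2
      rw [h2]
      congr 1
      simp only [map_mul, map_inv]
      cases s
      · rfl
      · rfl)
  obtain ⟨⟨i, s, g, k⟩, hp⟩ := h1
  refine ⟨i, g, k, ?_, ?_⟩
  · apply pr_closure
    intro U
    exact K_map_surj (pr U) (pr_surj U) x i (hp U).1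
  · cases s
    · right
      apply pr_sep_fun
      intro U
      rw [Function.comp_update]
      exact (hp U).2
    · left
      apply pr_sep_fun
      intro U
      rw [Function.comp_update]
      exact (hp U).2

theorem chain_compact {m : ℕ} {x y : Fin n → G}
    (h : ∀ U : OpenNormalSubgroup G, Chain GMove m (pr U ∘ x) (pr U ∘ y)) : Chain TMove m x y := by
  induction m generalizing x with
  | zero => exact pr_sep_fun h
  | succ m ih =>
    obtain ⟨z, hz⟩ := compact_choice (P := fun U => {z : Fin n → G |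
      GMove (pr U ∘ x) (pr U ∘ z) ∧ Chain GMove m (pr U ∘ z) (pr U ∘ y)}) (fun U => by
        obtain ⟨w, hw, hw'⟩ := h U
        obtain ⟨z, hz⟩ : ∃ z : Fin n → G, pr U ∘ z = w := by
          choose z hz using fun i => pr_surj U (w i)
          exact ⟨z, funext hz⟩
        subst hz
        exact ⟨z, hw, hw'⟩)
      (fun U => comp_closed U fun w => GMove (pr U ∘ x) w ∧ Chain GMove m w (pr U ∘ y))
      (fun U V hUV z hz => by
        obtain ⟨hz1, hz2⟩ := hz
        have h1 := gm_map (pr2 hUV) hz1
        have h2 := chain_map (pr2 hUV) hz2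
        rw [pr2_comp, pr2_comp] at h1 h2
        exact ⟨h1, h2⟩)
    exact ⟨z, gm_compact fun U => (hz U).1, ih fun U => (hz U).2⟩

/-! ### quotients -/

omit [CompactSpace G] [TotallyDisconnectedSpace G] in
theorem map_dense {H : Subgroup G} (hH : Dense (H : Set G)) (U : OpenNormalSubgroup G) :
    H.map (pr U) = ⊤ := by
  rw [eq_top_iff]
  rintro a -
  obtain ⟨g, rfl⟩ := pr_surj U a
  have h1 : IsOpen ((fun h => g⁻¹ * h) ⁻¹' (U : Set G)) :=
    U.isOpen'.preimage (continuous_const.mul continuous_id)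
  obtain ⟨h, h2, h3⟩ := hH.inter_open_nonempty _ h1 ⟨g, by
    rw [Set.mem_preimage, inv_mul_cancel]
    exact one_mem U⟩
  exact ⟨h, h3, ((pr_eq U).mpr h2).symm⟩

omit [CompactSpace G] [TotallyDisconnectedSpace G] in
theorem closure_dense {e : Fin n → G} (he : Dense (Subgroup.closure (Set.range e) : Set G))
    (U : OpenNormalSubgroup G) : Subgroup.closure (Set.range (pr U ∘ e)) = ⊤ := by
  rw [← map_dense he U, MonoidHom.map_closure, Set.range_comp]

omit [CompactSpace G] [TotallyDisconnectedSpace G] in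
theorem normalClosure_dense {x : Fin n → G}
    (hx : Dense (Subgroup.normalClosure (Set.range x) : Set G))
    (U : OpenNormalSubgroup G) : Subgroup.normalClosure (Set.range (pr U ∘ x)) = ⊤ := by
  rw [← map_dense hx U, Subgroup.map_normalClosure _ _ (pr_surj U), Set.range_comp]

omit [CompactSpace G] [TotallyDisconnectedSpace G] in
theorem ab_dense {x y : Fin n → G}
    (hab : ∀ (U : Subgroup G) [U.Normal], IsOpen (U : Set G) → commutator G ≤ U →
      AC (fun i => (x i : G ⧸ U)) (fun i => (y i : G ⧸ U))) (U : OpenNormalSubgroup G) :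
    AC (fun i => Abelianization.of ((pr U ∘ x) i)) (fun i => Abelianization.of ((pr U ∘ y) i)) := by
  let V : Subgroup G := (commutator (G ⧸ U.toSubgroup)).comap (pr U)
  have hVn : V.Normal := Subgroup.Normal.comap inferInstance _
  have hUV : U.toSubgroup ≤ V := by
    intro g hg
    show pr U g ∈ commutator (G ⧸ U.toSubgroup)
    have h1 : pr U g = 1 := (QuotientGroup.eq_one_iff g).mpr hg
    rw [h1]
    exact one_mem _
  have hVo : IsOpen (V : Set G) := Subgroup.isOpen_mono hUV U.isOpen'
  have hVc : commutator G ≤ V := by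
    rw [← Subgroup.map_le_iff_le_comap, commutator_def, Subgroup.map_commutator, commutator_def]
    exact Subgroup.commutator_mono le_top le_top
  have hV : ∀ v ∈ V, (Abelianization.of.comp (pr U)) v = 1 := by
    intro v hv
    have h1 : pr U v ∈ commutator (G ⧸ U.toSubgroup) := hv
    rw [← Abelianization.ker_of, MonoidHom.mem_ker] at h1
    exact h1
  exact (hab V hVo hVc).map (QuotientGroup.lift V (Abelianization.of.comp (pr U)) hV)

end Pool.Agent.PAC
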